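import Pool.Agent.Lib.MP_a8d7f7_al.Colour

/-!
# MP_a8d7f7_al: the chain of annihilators, growth (helper62)
-/

set_option autoImplicit false
set_option linter.unusedSectionVars false
set_option linter.unusedVariables false

namespace FinSym

open Finset Equiv

variable {K : Type*} [Field K] {Ω : Type*}

/-- an element which moves only letters on which a colouring is injective does not kill it -/
theorem not_mem_Ann {n : ℕ} {x : MonoidAlgebra K (FSym Ω)} (hx : x ≠ 0) {X : Finset Ω}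
    (hX : ∀ σ ∈ x.coeff.support, ∀ z, z ∉ X → (σ : Perm Ω) z = z) (C : Ω → Fin n)
    (hC : Set.InjOn C X) : x ∉ Ann K Ω n := by
  classical
  intro hA
  obtain ⟨σ₀, hσ₀⟩ : ∃ σ₀, x.coeff σ₀ ≠ 0 := by
    by_contra hcon
    push Not at hcon
    apply hx
    apply MonoidAlgebra.ext
    apply Finsupp.ext
    intro σ
    rw [hcon σ]
    rfl
  have hσ₀' : σ₀ ∈ x.coeff.support := Finsupp.mem_support_iff.mpr hσ₀
  have h1 := LinearMap.congr_fun (mem_Ann.mp hA) (Finsupp.single C 1)
  rw [LinearMap.zero_apply, expand x (subset_refl _), map_sum, LinearMap.sum_apply] at h1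
  have h2 : ∀ σ : FSym Ω, (col K Ω n) (x.coeff σ • MonoidAlgebra.of K (FSym Ω) σ)
      (Finsupp.single C 1) = Finsupp.single (C ∘ ((σ⁻¹ : FSym Ω) : Perm Ω)) (x.coeff σ) := by
    intro σ
    rw [map_smul, LinearMap.smul_apply, col_of, Finsupp.smul_single, smul_eq_mul, mul_one]
  simp only [h2] at h1
  have h3 := DFunLike.congr_fun h1 (C ∘ ((σ₀⁻¹ : FSym Ω) : Perm Ω))
  rw [Finsupp.finsetSum_apply, sum_eq_single_of_mem σ₀ hσ₀'] at h3
  · rw [Finsupp.single_eq_same] at h3
    exact hσ₀ h3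
  · intro σ hσ hne
    apply Finsupp.single_eq_of_ne
    intro h
    apply hne
    have hin : ∀ ρ : FSym Ω, ρ ∈ x.coeff.support → ∀ z ∈ X, ((ρ⁻¹ : FSym Ω) : Perm Ω) z ∈ X := by
      intro ρ hρ z hz
      by_contra hcon
      have h4 := hX ρ hρ _ hcon
      have h5 : (ρ : Perm Ω) (((ρ⁻¹ : FSym Ω) : Perm Ω) z) = z :=
        (ρ : Perm Ω).apply_symm_apply z
      rw [h5] at h4
      rw [← h4] at hcon
      exact hcon hz
    have hinv : σ⁻¹ = σ₀⁻¹ := by
      apply Subtype.ext
      apply Equiv.ext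
      intro z
      by_cases hz : z ∈ X
      · exact hC (hin σ hσ z hz) (hin σ₀ hσ₀' z hz) (congrFun h z).symm
      · have h6 : ∀ ρ : FSym Ω, ρ ∈ x.coeff.support → ((ρ⁻¹ : FSym Ω) : Perm Ω) z = z := by
          intro ρ hρ
          change (ρ : Perm Ω)⁻¹ z = z
          rw [Perm.inv_eq_iff_eq]
          exact (hX ρ hρ z hz).symm
        rw [h6 σ hσ, h6 σ₀ hσ₀']
    exact inv_injective hinv

/-- the finite set of letters moved by an element -/
theorem exists_support (x : MonoidAlgebra K (FSym Ω)) :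
    ∃ Δ : Finset Ω, ∀ σ ∈ x.coeff.support, ∀ z, z ∉ Δ → (σ : Perm Ω) z = z := by
  classical
  have : ∀ σ : FSym Ω, ∃ D : Finset Ω, ∀ z, z ∉ D → (σ : Perm Ω) z = z := by
    intro σ
    refine ⟨(mem_FSym.mp σ.2).toFinset, fun z hz => ?_⟩
    rw [Set.Finite.mem_toFinset] at hz
    by_contra hcon
    exact hz hcon
  choose D hD using this
  refine ⟨x.coeff.support.biUnion D, fun σ hσ z hz => hD σ z (fun h => hz ?_)⟩
  exact mem_biUnion.mpr ⟨σ, hσ, h⟩

theorem exists_injOn (X : Finset Ω) {n : ℕ} (hn : X.card ≤ n) (hn1 : 1 ≤ n) :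
    ∃ C : Ω → Fin n, Set.InjOn C X := by
  classical
  let e : X ≃ Fin X.card := X.equivFin
  refine ⟨fun z => if hz : z ∈ X then Fin.castLE hn (e ⟨z, hz⟩) else ⟨0, hn1⟩, ?_⟩
  intro a ha b hb hab
  rw [mem_coe] at ha hb
  simp only [dif_pos ha, dif_pos hb] at hab
  have h1 := e.injective (Fin.castLE_injective hn hab)
  exact congrArg Subtype.val h1

/-- nonzero elements of `Ann n` move more than `n` letters -/
theorem lt_card_of_mem_Ann {n : ℕ} (hn1 : 1 ≤ n) {x : MonoidAlgebra K (FSym Ω)} (hx : x ≠ 0)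
    (hA : x ∈ Ann K Ω n) {X : Finset Ω}
    (hX : ∀ σ ∈ x.coeff.support, ∀ z, z ∉ X → (σ : Perm Ω) z = z) : n < X.card := by
  by_contra hcon
  push Not at hcon
  obtain ⟨C, hC⟩ := exists_injOn X hcon hn1
  exact not_mem_Ann hx hX C hC hA

theorem Ann_succ_le (n : ℕ) : Ann K Ω (n + 1) ≤ Ann K Ω n := by
  intro x hx
  rw [mem_Ann] at hx ⊢
  apply Finsupp.lhom_ext
  intro C a
  rw [LinearMap.zero_apply]
  let j : (Ω → Fin n) → (Ω → Fin (n + 1)) := fun C z => (C z).castSucc
  have hj : Function.Injective j := by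
    intro C C' h
    funext z
    exact Fin.castSucc_injective _ (congrFun h z)
  have h1 : ∀ y : MonoidAlgebra K (FSym Ω), col K Ω (n + 1) y (Finsupp.single (j C) a) =
      Finsupp.mapDomain j (col K Ω n y (Finsupp.single C a)) := by
    intro y
    rw [expand y (subset_refl _), map_sum, map_sum, LinearMap.sum_apply, LinearMap.sum_apply,
      Finsupp.mapDomain_finsetSum]
    apply sum_congr rfl
    intro σ _
    rw [map_smul, map_smul, LinearMap.smul_apply, LinearMap.smul_apply, col_of, col_of,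
      Finsupp.mapDomain_smul, Finsupp.mapDomain_single]
    rfl
  have h2 := h1 x
  rw [hx, LinearMap.zero_apply] at h2
  have h3 : Finsupp.mapDomain j (col K Ω n x (Finsupp.single C a)) = Finsupp.mapDomain j 0 := by
    rw [← h2, Finsupp.mapDomain_zero]
  exact Finsupp.mapDomain_injective hj h3

theorem Ann_antitone : Antitone (Ann K Ω) := antitone_nat_of_succ_le Ann_succ_le

variable [DecidableEq Ω]

theorem antisymmetrizer_ne_zero (Δ : Finset Ω) : antisymmetrizer K Δ ≠ 0 := by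
  classical
  intro h
  have h1 := congrArg (fun x => (MonoidAlgebra.coeff x) 1) h
  unfold antisymmetrizer at h1
  simp only [MonoidAlgebra.coeff_sum, MonoidAlgebra.coeff_zero, Finsupp.coe_zero,
    Pi.zero_apply] at h1
  rw [Finsupp.finsetSum_apply, sum_eq_single_of_mem (1 : Perm Δ) (mem_univ _)] at h1
  · have h2 : (((Perm.sign (1 : Perm Δ) : ℤ) : K) • MonoidAlgebra.of K (FSym Ω)
        (ext Δ (1 : Perm Δ))).coeff 1 = 1 := by
      rw [map_one (ext Δ), map_one (MonoidAlgebra.of K (FSym Ω)), Perm.sign_one]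
      simp [MonoidAlgebra.one_def]
    rw [h2] at h1
    exact one_ne_zero h1
  · intro τ _ hτ
    rw [MonoidAlgebra.of_apply, MonoidAlgebra.coeff_smul, MonoidAlgebra.coeff_single]
    rw [Finsupp.smul_apply, Finsupp.single_eq_of_ne, smul_zero]
    intro h2
    apply hτ
    apply ext_injective Δ
    rw [map_one]
    exact h2.symm

theorem support_antisymmetrizer (Δ : Finset Ω) :
    ∀ σ ∈ (antisymmetrizer K Δ).coeff.support, ∀ z, z ∉ Δ → (σ : Perm Ω) z = z := by
  classical
  intro σ hσ z hz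
  rw [Finsupp.mem_support_iff] at hσ
  unfold antisymmetrizer at hσ
  rw [MonoidAlgebra.coeff_sum, Finsupp.finsetSum_apply] at hσ
  obtain ⟨τ, -, hτ⟩ := exists_ne_zero_of_sum_ne_zero hσ
  rw [MonoidAlgebra.of_apply, MonoidAlgebra.coeff_smul, MonoidAlgebra.coeff_single,
    Finsupp.smul_apply] at hτ
  have h1 : σ = ext Δ τ := by
    by_contra hcon
    apply hτ
    rw [Finsupp.single_eq_of_ne hcon, smul_zero]
  rw [h1]
  exact ext_notMem Δ τ hz

theorem Ann_strictAnti [Infinite Ω] : StrictAnti (Ann K Ω) := by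
  apply strictAnti_nat_of_succ_lt
  intro n
  refine lt_of_le_of_ne (Ann_succ_le n) ?_
  intro h
  obtain ⟨Δ, hΔ⟩ := Infinite.exists_subset_card_eq Ω (n + 1)
  have h1 : antisymmetrizer K Δ ∈ Ann K Ω n := antisymmetrizer_mem_Ann (by rw [hΔ]; omega)
  rw [← h] at h1
  have := lt_card_of_mem_Ann (K := K) (Nat.succ_le_succ (Nat.zero_le n))
    (antisymmetrizer_ne_zero Δ) h1 (support_antisymmetrizer Δ)
  omega

theorem Ann_ne_bot [Infinite Ω] (n : ℕ) : Ann K Ω n ≠ ⊥ := by
  intro h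
  obtain ⟨Δ, hΔ⟩ := Infinite.exists_subset_card_eq Ω (n + 1)
  have h1 : antisymmetrizer K Δ ∈ Ann K Ω n := antisymmetrizer_mem_Ann (by rw [hΔ]; omega)
  rw [h, TwoSidedIdeal.mem_bot] at h1
  exact antisymmetrizer_ne_zero Δ h1

theorem iInf_Ann : ⨅ n, Ann K Ω n = ⊥ := by
  rw [eq_bot_iff]
  intro x hx
  rw [TwoSidedIdeal.mem_bot]
  by_contra hx0
  obtain ⟨X, hX⟩ := exists_support x
  rw [TwoSidedIdeal.mem_iInf] at hx
  have := lt_card_of_mem_Ann (Nat.le_add_left 1 X.card) hx0 (hx (X.card + 1)) hX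
  omega

end FinSym
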