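import Pool.Agent.Lib.MP_a8d7f7_al.Diag

/-!
# MP_a8d7f7_al: the finite theorem (helper62)
-/

set_option autoImplicit false
set_option linter.unusedSectionVars false
set_option linter.unusedVariables false

namespace FinSym

open Finset Equiv

variable {K : Type*} [Field K] {α : Type*} [Fintype α] [DecidableEq α]

theorem smul_mem_ideal {G : Type*} [Monoid G] {J : TwoSidedIdeal (MonoidAlgebra K G)} (r : K)
    {x : MonoidAlgebra K G} (hx : x ∈ J) : r • x ∈ J := by
  have := J.mul_mem_left (r • 1) x hx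
  rwa [smul_mul_assoc, one_mul] at this

/-- an element of an ideal supported on `n` letters forces the products
`(antisymmetrizers of n columns)(symmetrizers of n rows)` into the ideal -/
theorem fact2 {n : ℕ} {Ys : List (Finset α)} {cols : List (α × Finset α)} (hv : Valid n Ys cols)
    (hlen : Ys.length = n) (hdis : Ys.Pairwise Disjoint) {X : Finset α} (hX : X.card = n)
    {s : Finset (Perm α)} (hs : ∀ σ ∈ s, σ ∈ PS X) {c : Perm α → K} {σ₀ : Perm α} (hσ₀ : σ₀ ∈ s)
    (hc : c σ₀ ≠ 0) {J : TwoSidedIdeal (MonoidAlgebra K (Perm α))}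
    (hf : ∑ σ ∈ s, c σ • o K σ ∈ J) : Kap K cols * E K Ys ∈ J := by
  have hex : ∀ i : Fin n, ∃ z, F (cols[i]'(by rw [hv.len]; exact i.2)) ∩
      Ys[i]'(by rw [hlen]; exact i.2) = {z} := fun i =>
    card_eq_one.mp (hv.one _ (List.getElem_mem _) _ (List.getElem_mem _))
  choose d hd using hex
  have hdm : ∀ i : Fin n, d i ∈ F (cols[i]'(by rw [hv.len]; exact i.2)) ∩
      Ys[i]'(by rw [hlen]; exact i.2) := fun i => by rw [hd i]; exact mem_singleton_self _
  have hd1 : ∀ i : Fin n, d i ∈ Ys[i]'(by rw [hlen]; exact i.2) :=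
    fun i => (mem_inter.mp (hdm i)).2
  have hd2 : ∀ i : Fin n, d i ∈ F (cols[i]'(by rw [hv.len]; exact i.2)) :=
    fun i => (mem_inter.mp (hdm i)).1
  have hinj : Function.Injective d := by
    intro i j hij
    by_contra hne
    have hne' : (i : ℕ) ≠ j := fun h => hne (Fin.ext h)
    have hi : (i : ℕ) < Ys.length := by rw [hlen]; exact i.2
    have hj : (j : ℕ) < Ys.length := by rw [hlen]; exact j.2
    have h1 : Disjoint Ys[(i : ℕ)] Ys[(j : ℕ)] := by
      rw [List.pairwise_iff_getElem] at hdis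
      rcases lt_or_gt_of_ne hne' with h | h
      · exact hdis i j hi hj h
      · exact (hdis j i hj hi h).symm
    exact disjoint_left.mp h1 (hd1 i) (by rw [hij]; exact hd1 j)
  -- move the letters of `X` to the diagonal
  obtain ⟨g, hg⟩ : ∃ g : Perm α, ∀ x ∈ X, ∃ i, d i = g x := by
    classical
    let e1 : {x // x ∈ X} ≃ Fin n := X.equivFinOfCardEq hX
    let e2 : Fin n ≃ {x // x ∈ Set.range d} := Equiv.ofInjective d hinj
    let g : Perm α := (e1.trans e2).extendSubtype
    refine ⟨g, fun x hx => ⟨e1 ⟨x, hx⟩, ?_⟩⟩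
    have := (e1.trans e2).extendSubtype_apply_of_mem x hx
    change g x = _ at this
    rw [this]
    rfl
  have hcalc : (Kap K cols * o K (g * σ₀⁻¹)) * (∑ σ ∈ s, c σ • o K σ) * (o K g⁻¹ * E K Ys) =
      c σ₀ • (Kap K cols * E K Ys) := by
    rw [mul_sum, sum_mul]
    rw [sum_eq_single_of_mem σ₀ hσ₀]
    · rw [mul_smul_comm, smul_mul_assoc]
      congr 1
      have : ∀ a b c' d' f : MonoidAlgebra K (Perm α), a * b * c' * (d' * f) =
          a * (b * c' * d') * f := by
        intro a b c' d' f; simp only [mul_assoc]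
      rw [this, ← o_mul, ← o_mul]
      have h1 : g * σ₀⁻¹ * σ₀ * g⁻¹ = 1 := by group
      rw [h1, o_one, mul_one]
    · intro σ hσ hne
      have : ∀ a b c' d' f : MonoidAlgebra K (Perm α), a * b * c' * (d' * f) =
          a * (b * c' * d') * f := by
        intro a b c' d' f; simp only [mul_assoc]
      rw [mul_smul_comm, smul_mul_assoc, this, ← o_mul, ← o_mul,
        vanish hv hlen hdis d hd1 hd2, smul_zero]
      · intro x hx
        have h1 : g⁻¹ x ∉ X := by
          intro h
          obtain ⟨i, hi⟩ := hg _ h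
          rw [show g (g⁻¹ x) = x from g.apply_symm_apply x] at hi
          exact hx i hi
        change g (σ₀⁻¹ (σ (g⁻¹ x))) = x
        rw [hs σ hσ _ h1, (PS X).inv_mem (hs σ₀ hσ₀) _ h1]
        exact g.apply_symm_apply x
      · intro h
        apply hne
        have h1 : σ = σ₀ * g⁻¹ * (g * σ₀⁻¹ * σ * g⁻¹) * g := by group
        rw [h1, h]
        group
  have h1 : c σ₀ • (Kap K cols * E K Ys) ∈ J := by
    rw [← hcalc]
    exact J.mul_mem_right _ _ (J.mul_mem_left _ _ hf)
  have h2 := smul_mem_ideal (c σ₀)⁻¹ h1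
  rwa [smul_smul, inv_mul_cancel₀ hc, one_smul] at h2

/-- enough room gives good rows -/
theorem exists_good {p : ℕ} (hp : p.Prime) {n : ℕ} (hn : 1 ≤ n) : ∀ m : ℕ,
    n * (p + 1) ^ m ≤ Fintype.card α → ∃ Ys : List (Finset α), Ys.length = m + 1 ∧ Good p n Ys ∧
      Ys.Pairwise Disjoint ∧ (un Ys).card ≤ n * (p + 1) ^ m ∧ 1 ≤ (un Ys).card := by
  intro m
  induction m with
  | zero =>
    intro h
    rw [pow_zero, mul_one] at h
    obtain ⟨Y, -, hY⟩ := exists_subset_card_eq (s := (univ : Finset α)) (n := n)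
      (by rw [card_univ]; exact h)
    refine ⟨[Y], rfl, Good.base Y hY, List.pairwise_singleton _ _, ?_, ?_⟩
    · rw [un_cons]; simp [un, hY]
    · rw [un_cons]; simp [un, hY, hn]
  | succ m ih =>
    intro h
    have hle : n * (p + 1) ^ m ≤ n * (p + 1) ^ (m + 1) :=
      Nat.mul_le_mul_left _ (Nat.pow_le_pow_right (Nat.succ_pos p) (Nat.le_succ m))
    obtain ⟨Ys, hlen, hG, hd, hc, hc1⟩ := ih (hle.trans h)
    set b := (un Ys).card with hb
    set N := Nat.log p b + 1 with hN
    have h1 : b < p ^ N := Nat.lt_pow_succ_log_self hp.one_lt b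
    have h2 : p ^ N ≤ p * b := by
      rw [hN, pow_succ, mul_comm]
      exact Nat.mul_le_mul_left _ (Nat.pow_log_le_self p (by omega))
    have h3 : b + p * b ≤ n * (p + 1) ^ (m + 1) := by
      calc b + p * b = b * (p + 1) := by ring
        _ ≤ n * (p + 1) ^ m * (p + 1) := Nat.mul_le_mul_right _ hc
        _ = n * (p + 1) ^ (m + 1) := by rw [pow_succ]; ring
    have hpos : 0 < p ^ N := Nat.pow_pos hp.pos
    obtain ⟨Y, hYs, hY⟩ := exists_subset_card_eq (s := (un Ys)ᶜ) (n := p ^ N - 1) (by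
      rw [card_compl, ← hb]; omega)
    have hdis : Disjoint Y (un Ys) := by
      rw [disjoint_left]
      intro z hz hz'
      exact (mem_compl.mp (hYs hz)) hz'
    refine ⟨Y :: Ys, by rw [List.length_cons, hlen], Good.step Y Ys N hG hdis hY h1, ?_, ?_, ?_⟩
    · rw [List.pairwise_cons]
      refine ⟨fun Y' hY' => hdis.mono_right (sub_un hY'), hd⟩
    · rw [un_cons, card_union_of_disjoint hdis, hY, ← hb]
      omega
    · rw [un_cons, card_union_of_disjoint hdis, ← hb]
      omega

/-! ### The sign automorphism -/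

/-- the sign as a homomorphism into `K`-algebra elements -/
noncomputable def thHom (K : Type*) [Field K] (α : Type*) [Fintype α] [DecidableEq α] :
    Perm α →* MonoidAlgebra K (Perm α) where
  toFun σ := sg K σ • o K σ
  map_one' := by rw [sg_one, one_smul, o_one]
  map_mul' σ τ := by rw [sg_mul, o_mul, smul_mul_smul_comm]

/-- `σ ↦ sgn(σ) σ` -/
noncomputable def th (K : Type*) [Field K] (α : Type*) [Fintype α] [DecidableEq α] :
    MonoidAlgebra K (Perm α) →ₐ[K] MonoidAlgebra K (Perm α) :=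
  MonoidAlgebra.lift K _ _ (thHom K α)

theorem th_o (σ : Perm α) : th K α (o K σ) = sg K σ • o K σ := by
  unfold th
  exact MonoidAlgebra.lift_of _ _

theorem sg_mul_self (σ : Perm α) : sg K σ * sg K σ = 1 := by
  unfold sg
  rcases Int.units_eq_one_or (Perm.sign σ) with h | h <;> rw [h] <;> simp

theorem th_e (D : Finset α) : th K α (e K D) = k K D := by
  unfold e k
  rw [map_sum]
  exact sum_congr rfl (fun σ _ => th_o σ)

theorem th_k (D : Finset α) : th K α (k K D) = e K D := by
  unfold e k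
  rw [map_sum]
  apply sum_congr rfl
  intro σ _
  rw [map_smul, th_o, smul_smul, sg_mul_self, one_smul]

theorem k_mem_of_subset {J : TwoSidedIdeal (MonoidAlgebra K (Perm α))} {D D' : Finset α}
    (h : D ⊆ D') (hD : k K D ∈ J) : k K D' ∈ J := by
  have : ∀ T : Finset α, Disjoint T D → k K (T ∪ D) ∈ J := by
    intro T
    induction T using Finset.induction_on with
    | empty => intro _; rw [empty_union]; exact hD
    | insert y T hy ih =>
      intro hd
      rw [disjoint_insert_left] at hd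
      have h1 : y ∉ T ∪ D := by rw [mem_union, not_or]; exact ⟨hy, hd.1⟩
      rw [insert_union, k_insert h1]
      exact J.mul_mem_left _ _ (ih hd.2)
  have h1 := this (D' \ D) sdiff_disjoint
  rwa [sdiff_union_of_subset h] at h1

theorem e_mem_of_subset {J : TwoSidedIdeal (MonoidAlgebra K (Perm α))} {D D' : Finset α}
    (h : D ⊆ D') (hD : e K D ∈ J) : e K D' ∈ J := by
  have h1 : k K D ∈ J.comap (th K α) := by
    rw [TwoSidedIdeal.mem_comap, th_k]; exact hD
  have h2 := k_mem_of_subset h h1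
  rwa [TwoSidedIdeal.mem_comap, th_k] at h2

/-- **The finite theorem.** -/
theorem fin_main_e {p : ℕ} (hp : p.Prime) [CharP K p] {n : ℕ} (hn : 1 ≤ n)
    (hα : n * (p + 1) ^ (n - 1) ≤ Fintype.card α) {X : Finset α} (hX : X.card = n)
    {s : Finset (Perm α)} (hs : ∀ σ ∈ s, σ ∈ PS X) {c : Perm α → K} {σ₀ : Perm α} (hσ₀ : σ₀ ∈ s)
    (hc : c σ₀ ≠ 0) {J : TwoSidedIdeal (MonoidAlgebra K (Perm α))}
    (hf : ∑ σ ∈ s, c σ • o K σ ∈ J) : e K (univ : Finset α) ∈ J := by
  obtain ⟨Ys, hlen, hG, hd, -, -⟩ := exists_good (α := α) hp hn (n - 1) hα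
  have hlen' : Ys.length = n := by omega
  refine e_mem_of_subset (subset_univ (un Ys)) ?_
  have h1 := hG.e_mem (K := K) hp
  unfold Lsub at h1
  generalize e K (un Ys) = x at h1
  induction h1 using Submodule.span_induction with
  | mem x hx =>
    obtain ⟨g, hg, cols, hv, rfl⟩ := hx
    exact J.mul_mem_left _ _ (fact2 hv hlen' hd hX hs hσ₀ hc hf)
  | zero => exact J.zero_mem
  | add x y _ _ hx hy => exact J.add_mem hx hy
  | smul r x _ hx => exact smul_mem_ideal r hx

theorem fin_main_k {p : ℕ} (hp : p.Prime) [CharP K p] {n : ℕ} (hn : 1 ≤ n)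
    (hα : n * (p + 1) ^ (n - 1) ≤ Fintype.card α) {X : Finset α} (hX : X.card = n)
    {s : Finset (Perm α)} (hs : ∀ σ ∈ s, σ ∈ PS X) {c : Perm α → K} {σ₀ : Perm α} (hσ₀ : σ₀ ∈ s)
    (hc : c σ₀ ≠ 0) {J : TwoSidedIdeal (MonoidAlgebra K (Perm α))}
    (hf : ∑ σ ∈ s, c σ • o K σ ∈ J) : k K (univ : Finset α) ∈ J := by
  have hsg : sg K σ₀ ≠ 0 := left_ne_zero_of_mul_eq_one (sg_mul_self σ₀)
  have h1 : e K (univ : Finset α) ∈ J.comap (th K α) := by
    refine fin_main_e (K := K) hp hn hα hX hs (c := fun σ => c σ * sg K σ) hσ₀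
      (mul_ne_zero hc hsg) ?_
    rw [TwoSidedIdeal.mem_comap, map_sum]
    convert hf using 2 with σ hσ
    rw [map_smul, th_o, smul_smul, mul_assoc, sg_mul_self, mul_one]
  rwa [TwoSidedIdeal.mem_comap, th_e] at h1

end FinSym
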