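import Pool.Agent.Lib.MP_a8d7f7_al.Diag
import Pool.Agent.Lib.MP_a8d7f7_al.FinMain

/-!
# MP_a8d7f7_al: straightening (helper62)
-/

set_option autoImplicit false
set_option linter.unusedSectionVars false
set_option linter.unusedVariables false

namespace FinSym

open Finset Equiv

variable {K : Type*} [Field K] {α : Type*} [Fintype α] [DecidableEq α]

/-- `σ` is decreasing on `D`, for the ranking `r` -/
def Decr (r : α → ℕ) (σ : Perm α) (D : Finset α) : Prop :=
  ∀ i ∈ D, ∀ j ∈ D, r i < r j → r (σ j) < r (σ i)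

/-- `σ` has no decreasing subsequence of length `d` -/
def NoDecr (r : α → ℕ) (d : ℕ) (σ : Perm α) : Prop := ∀ D : Finset α, D.card = d → ¬ Decr r σ D

/-- lexicographic order on permutations -/
def Lx (r : α → ℕ) (σ τ : Perm α) : Prop :=
  ∃ i, (∀ j, r j < r i → σ j = τ j) ∧ r (σ i) < r (τ i)

theorem Lx_irrefl (r : α → ℕ) (σ : Perm α) : ¬ Lx r σ σ := by
  rintro ⟨i, -, h⟩
  exact lt_irrefl _ h

theorem Lx_trans {r : α → ℕ} (hr : Function.Injective r) {σ τ ρ : Perm α} (h1 : Lx r σ τ)
    (h2 : Lx r τ ρ) : Lx r σ ρ := by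
  obtain ⟨i, hi1, hi2⟩ := h1
  obtain ⟨j, hj1, hj2⟩ := h2
  rcases lt_trichotomy (r i) (r j) with h | h | h
  · refine ⟨i, fun l hl => (hi1 l hl).trans (hj1 l (hl.trans h)), ?_⟩
    rw [← hj1 i h]; exact hi2
  · have := hr h
    subst this
    exact ⟨i, fun l hl => (hi1 l hl).trans (hj1 l hl), hi2.trans hj2⟩
  · refine ⟨j, fun l hl => (hi1 l (hl.trans h)).trans (hj1 l hl), ?_⟩
    rw [hi1 j h]; exact hj2

theorem Lx_wf {r : α → ℕ} (hr : Function.Injective r) : WellFounded (Lx (α := α) r) := by
  have : IsTrans (Perm α) (Lx r) := ⟨fun _ _ _ h1 h2 => Lx_trans hr h1 h2⟩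
  have : Std.Irrefl (Lx (α := α) r) := ⟨fun σ => Lx_irrefl r σ⟩
  exact Finite.wellFounded_of_trans_of_irrefl _

/-- a two-sided ideal as a subspace -/
def sub (K : Type*) [Field K] {G : Type*} [Monoid G] (J : TwoSidedIdeal (MonoidAlgebra K G)) :
    Submodule K (MonoidAlgebra K G) where
  carrier := {x | x ∈ J}
  add_mem' := fun ha hb => J.add_mem ha hb
  zero_mem' := J.zero_mem
  smul_mem' := fun r _ hx => smul_mem_ideal r hx

/-- **Straightening**: modulo the antisymmetrizers of `d`-sets, every permutation is a combination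
of permutations without decreasing subsequences of length `d`. -/
theorem straighten {r : α → ℕ} (hr : Function.Injective r) {d : ℕ}
    {J : TwoSidedIdeal (MonoidAlgebra K (Perm α))} (hJ : ∀ D : Finset α, D.card = d → k K D ∈ J)
    (σ : Perm α) :
    o K σ ∈ Submodule.span K {x | ∃ τ, NoDecr r d τ ∧ x = o K τ} ⊔ sub K J := by
  induction σ using (Lx_wf hr).induction with
  | h σ ih =>
    by_cases hσ : NoDecr r d σ
    · exact Submodule.mem_sup_left (Submodule.subset_span ⟨σ, hσ, rfl⟩)
    · unfold NoDecr at hσ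
      push Not at hσ
      obtain ⟨D, hD, hdec⟩ := hσ
      set T := Submodule.span K {x | ∃ τ, NoDecr r d τ ∧ x = o K τ} ⊔ sub K J with hT
      have h1 : o K σ * k K D ∈ T :=
        Submodule.mem_sup_right (J.mul_mem_left _ _ (hJ D hD))
      have h2 : o K σ * k K D = o K σ +
          ∑ π ∈ (univ.filter (· ∈ PS D)).erase 1, sg K π • o K (σ * π) := by
        unfold k
        rw [mul_sum, ← add_sum_erase _ _ (mem_filter.mpr ⟨mem_univ _, (PS D).one_mem⟩)]
        rw [sg_one, one_smul, o_one, mul_one]
        congr 1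
        apply sum_congr rfl
        intro π _
        rw [mul_smul_comm, o_mul]
      have h3 : ∑ π ∈ (univ.filter (· ∈ PS D)).erase 1, sg K π • o K (σ * π) ∈ T := by
        apply Submodule.sum_mem
        intro π hπ
        rw [mem_erase, mem_filter] at hπ
        obtain ⟨hπ1, -, hπD⟩ := hπ
        apply Submodule.smul_mem
        apply ih
        -- the first moved letter
        obtain ⟨i₀, hi₀⟩ : ∃ i, π i ≠ i := by
          by_contra hcon
          push Not at hcon
          exact hπ1 (Equiv.ext hcon)
        obtain ⟨i, hi, hmin⟩ := exists_min_image (univ.filter (fun i => π i ≠ i)) r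
          ⟨i₀, mem_filter.mpr ⟨mem_univ _, hi₀⟩⟩
        rw [mem_filter] at hi
        have hfix : ∀ j, r j < r i → π j = j := by
          intro j hj
          by_contra hcon
          exact absurd (hmin j (mem_filter.mpr ⟨mem_univ _, hcon⟩)) (not_le.mpr hj)
        have hiD : i ∈ D := by
          by_contra hcon
          exact hi.2 (hπD i hcon)
        have hgt : r i < r (π i) := by
          rcases lt_trichotomy (r (π i)) (r i) with h | h | h
          · exact absurd (π.injective (hfix _ h)) hi.2
          · exact absurd (hr h) hi.2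
          · exact h
        refine ⟨i, fun j hj => ?_, ?_⟩
        · rw [Perm.mul_apply, hfix j hj]
        · rw [Perm.mul_apply]
          exact hdec i hiD _ (PS_maps hπD hiD) hgt
      have h4 : o K σ = o K σ * k K D -
          ∑ π ∈ (univ.filter (· ∈ PS D)).erase 1, sg K π • o K (σ * π) := by
        rw [h2]; abel
      rw [h4]
      exact Submodule.sub_mem _ h1 h3

/-- the colouring by the length of the longest decreasing subsequence ending at a letter -/
theorem exists_colouring {r : α → ℕ} (hr : Function.Injective r) {d : ℕ} (hd : 1 ≤ d) {σ : Perm α}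
    (hσ : NoDecr r (d + 1) σ) :
    ∃ C : α → Fin d, ∀ i j, r i < r j → C i = C j → r (σ i) < r (σ j) := by
  classical
  let A : α → Finset (Finset α) := fun i =>
    univ.filter (fun D => i ∈ D ∧ (∀ j ∈ D, r j ≤ r i) ∧ Decr r σ D)
  have hA : ∀ i D, D ∈ A i ↔ i ∈ D ∧ (∀ j ∈ D, r j ≤ r i) ∧ Decr r σ D := by
    intro i D
    simp only [A, mem_filter, mem_univ, true_and]
  have hne : ∀ i, {i} ∈ A i := by
    intro i
    rw [hA]
    refine ⟨mem_singleton_self i, ?_, ?_⟩
    · intro j hj
      rw [mem_singleton] at hj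
      rw [hj]
    · intro a ha b hb hab
      rw [mem_singleton] at ha hb
      rw [ha, hb] at hab
      exact absurd hab (lt_irrefl _)
  let L : α → ℕ := fun i => (A i).sup card
  have hL1 : ∀ i, 1 ≤ L i := by
    intro i
    have := le_sup (f := card) (hne i)
    rwa [card_singleton] at this
  have hLd : ∀ i, L i ≤ d := by
    intro i
    apply Finset.sup_le
    intro D hD
    by_contra hcon
    push Not at hcon
    obtain ⟨D', hD', hc⟩ := exists_subset_card_eq (show d + 1 ≤ D.card from hcon)
    exact hσ D' hc (fun a ha b hb => ((hA i D).mp hD).2.2 a (hD' ha) b (hD' hb))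
  have hstep : ∀ i j, r i < r j → r (σ j) < r (σ i) → L i < L j := by
    intro i j hij hσij
    obtain ⟨D, hD, hDc⟩ := exists_mem_eq_sup (A i) ⟨_, hne i⟩ card
    have hDA := (hA i D).mp hD
    have hjD : j ∉ D := fun h => absurd (hDA.2.1 j h) (not_le.mpr hij)
    have h1 : insert j D ∈ A j := by
      rw [hA]
      refine ⟨mem_insert_self _ _, ?_, ?_⟩
      · intro l hl
        rw [mem_insert] at hl
        rcases hl with rfl | hl
        · exact le_rfl
        · exact (hDA.2.1 l hl).trans hij.le
      · intro a ha b hb hab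
        rw [mem_insert] at ha hb
        rcases ha with rfl | ha <;> rcases hb with rfl | hb
        · exact absurd hab (lt_irrefl _)
        · exact absurd ((hDA.2.1 b hb).trans_lt hij) (not_lt.mpr hab.le)
        · -- a ∈ D, b = j
          by_cases hai : a = i
          · rw [hai]; exact hσij
          · have h2 : r a < r i :=
              lt_of_le_of_ne (hDA.2.1 a ha) (fun h => hai (hr h))
            exact hσij.trans (hDA.2.2 a ha i hDA.1 h2)
        · exact hDA.2.2 a ha b hb hab
    have h2 := le_sup (f := card) h1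
    rw [card_insert_of_notMem hjD] at h2
    change (A i).sup card < (A j).sup card
    rw [hDc]
    exact h2
  refine ⟨fun i => ⟨L i - 1, by have := hL1 i; have := hLd i; omega⟩, ?_⟩
  intro i j hij hC
  by_contra hcon
  have h1 : r (σ j) < r (σ i) := by
    apply lt_of_le_of_ne (not_lt.mp hcon)
    intro h
    have := σ.injective (hr h)
    rw [this] at hij
    exact lt_irrefl _ hij
  have h2 := hstep i j hij h1
  have h3 := congrArg Fin.val hC
  simp only at h3
  have := hL1 i
  have := hL1 j
  omega

/-- the coset argument -/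
theorem Lx_of_colouring {r : α → ℕ} (hr : Function.Injective r) {β : Type*} {C : α → β}
    {σ τ : Perm α} (hC : ∀ i j, r i < r j → C i = C j → r (σ i) < r (σ j)) (hne : τ ≠ σ)
    (h : ∀ x, C (τ⁻¹ x) = C (σ⁻¹ x)) : Lx r σ τ := by
  set π := σ⁻¹ * τ with hπ
  have hCπ : ∀ x, C (π x) = C x := by
    intro x
    have := h (τ x)
    rw [show τ⁻¹ (τ x) = x from τ.symm_apply_apply x] at this
    exact this.symm
  have hπ1 : π ≠ 1 := by
    intro h1
    apply hne
    have : τ = σ * π := by rw [hπ]; group
    rw [this, h1, mul_one]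
  have hτ : ∀ x, τ x = σ (π x) := by
    intro x
    rw [hπ]
    exact (σ.apply_symm_apply (τ x)).symm
  obtain ⟨i₀, hi₀⟩ : ∃ i, π i ≠ i := by
    by_contra hcon
    push Not at hcon
    exact hπ1 (Equiv.ext hcon)
  obtain ⟨i, hi, hmin⟩ := exists_min_image (univ.filter (fun i => π i ≠ i)) r
    ⟨i₀, mem_filter.mpr ⟨mem_univ _, hi₀⟩⟩
  rw [mem_filter] at hi
  have hfix : ∀ j, r j < r i → π j = j := by
    intro j hj
    by_contra hcon
    exact absurd (hmin j (mem_filter.mpr ⟨mem_univ _, hcon⟩)) (not_le.mpr hj)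
  have hgt : r i < r (π i) := by
    rcases lt_trichotomy (r (π i)) (r i) with h | h | h
    · exact absurd (π.injective (hfix _ h)) hi.2
    · exact absurd (hr h) hi.2
    · exact h
  refine ⟨i, fun j hj => ?_, ?_⟩
  · rw [hτ, hfix j hj]
  · rw [hτ]
    exact hC i _ hgt (hCπ i).symm

end FinSym
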