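import Pool.Agent.Lib.MP_a8d7f7_al.Transfer
import Pool.Agent.Lib.MP_a8d7f7_al.Straight

/-!
# MP_a8d7f7_al: the permutation modules of colourings (helper62)
-/

set_option autoImplicit false
set_option linter.unusedSectionVars false
set_option linter.unusedVariables false

namespace FinSym

open Finset Equiv

variable {K : Type*} [Field K] {Ω : Type*}

/-- The action of `FSym Ω` on the vector space with basis the colourings of `Ω` with `n` colours. -/
noncomputable def colHom (K : Type*) [Field K] (Ω : Type*) (n : ℕ) :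
    FSym Ω →* Module.End K ((Ω → Fin n) →₀ K) where
  toFun σ := Finsupp.lmapDomain K K (fun C : Ω → Fin n => C ∘ ((σ⁻¹ : FSym Ω) : Perm Ω))
  map_one' := by
    apply LinearMap.ext
    intro x
    rw [Finsupp.lmapDomain_apply]
    change Finsupp.mapDomain id x = x
    exact Finsupp.mapDomain_id
  map_mul' σ τ := by
    apply LinearMap.ext
    intro x
    rw [Module.End.mul_apply, Finsupp.lmapDomain_apply, Finsupp.lmapDomain_apply,
      Finsupp.lmapDomain_apply, ← Finsupp.mapDomain_comp]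
    congr 1

/-- The algebra `K[FSym Ω]` acts on the vector space with basis the colourings. -/
noncomputable def col (K : Type*) [Field K] (Ω : Type*) (n : ℕ) :
    MonoidAlgebra K (FSym Ω) →ₐ[K] Module.End K ((Ω → Fin n) →₀ K) :=
  MonoidAlgebra.lift K _ _ (colHom K Ω n)

/-- The annihilator of the permutation module of colourings with `n` colours. -/
noncomputable def Ann (K : Type*) [Field K] (Ω : Type*) (n : ℕ) :
    TwoSidedIdeal (MonoidAlgebra K (FSym Ω)) := TwoSidedIdeal.ker (col K Ω n)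

theorem mem_Ann {n : ℕ} {x : MonoidAlgebra K (FSym Ω)} : x ∈ Ann K Ω n ↔ col K Ω n x = 0 :=
  TwoSidedIdeal.mem_ker _

theorem col_of (n : ℕ) (σ : FSym Ω) (C : Ω → Fin n) (a : K) :
    col K Ω n (MonoidAlgebra.of K (FSym Ω) σ) (Finsupp.single C a) =
      Finsupp.single (C ∘ ((σ⁻¹ : FSym Ω) : Perm Ω)) a := by
  have h1 : col K Ω n (MonoidAlgebra.of K (FSym Ω) σ) = colHom K Ω n σ :=
    MonoidAlgebra.lift_of _ _
  rw [h1]
  change Finsupp.lmapDomain K K _ _ = _
  rw [Finsupp.lmapDomain_apply, Finsupp.mapDomain_single]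

variable [DecidableEq Ω]

/-- the antisymmetrizer of a subset of `Δ` -/
theorem phi_kD (Δ : Finset Ω) (D : Finset Δ) :
    phi K Δ (k K D) = antisymmetrizer K (D.map (Function.Embedding.subtype (· ∈ Δ))) := by
  set D' : Finset Ω := D.map (Function.Embedding.subtype (· ∈ Δ)) with hD'
  have hm : ∀ z : Δ, (z : Ω) ∈ D' ↔ z ∈ D := by
    intro z
    rw [hD', mem_map]
    constructor
    · rintro ⟨w, hw, h⟩
      have : w = z := Subtype.ext h
      rwa [this] at hw
    · intro h; exact ⟨z, h, rfl⟩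
  have hsub : D' ⊆ Δ := by
    intro z hz
    rw [hD', mem_map] at hz
    obtain ⟨w, -, rfl⟩ := hz
    exact w.2
  let e : D' ≃ {z : Δ // z ∈ D} :=
    { toFun := fun z => ⟨⟨z, hsub z.2⟩, (hm _).mp z.2⟩
      invFun := fun z => ⟨z.1, (hm _).mpr z.2⟩
      left_inv := fun z => rfl
      right_inv := fun z => rfl }
  unfold k antisymmetrizer
  rw [map_sum]
  symm
  refine sum_bij (fun τ _ => Perm.ofSubtype (e.permCongr τ)) ?_ ?_ ?_ ?_
  · intro τ _
    rw [mem_filter]
    refine ⟨mem_univ _, ?_⟩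
    intro x hx
    exact Perm.ofSubtype_apply_of_not_mem _ hx
  · intro τ _ τ' _ h
    exact e.permCongr.injective (Perm.ofSubtype_injective h)
  · intro σ hσ
    rw [mem_filter] at hσ
    have h1 : ∀ x, σ x ∈ D ↔ x ∈ D := by
      intro x
      constructor
      · intro h
        by_contra hx
        rw [hσ.2 x hx] at h
        exact hx h
      · exact fun h => PS_maps hσ.2 h
    refine ⟨e.symm.permCongr (σ.subtypePerm h1), mem_univ _, ?_⟩
    have h2 : e.permCongr (e.symm.permCongr (σ.subtypePerm h1)) = σ.subtypePerm h1 := by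
      apply Equiv.ext
      intro x
      simp [Equiv.permCongr_apply]
    rw [h2]
    apply Perm.ofSubtype_subtypePerm
    intro x hx
    by_contra hxD
    exact hx (hσ.2 x hxD)
  · intro τ _
    rw [map_smul, phi_o]
    have h1 : sg K (Perm.ofSubtype (e.permCongr τ)) = ((Perm.sign τ : ℤ) : K) := by
      unfold sg
      rw [Perm.sign_ofSubtype, Perm.sign_permCongr]
    rw [h1]
    congr 2
    apply Subtype.ext
    apply Equiv.ext
    intro x
    by_cases hx : x ∈ D'
    · have hxΔ : x ∈ Δ := hsub hx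
      have hxD : (⟨x, hxΔ⟩ : Δ) ∈ D := (hm ⟨x, hxΔ⟩).mp hx
      rw [ext_mem D' τ hx, ext_mem Δ _ hxΔ, Perm.ofSubtype_apply_of_mem _ hxD]
      rfl
    · rw [ext_notMem D' τ hx]
      by_cases hxΔ : x ∈ Δ
      · have hxD : (⟨x, hxΔ⟩ : Δ) ∉ D := fun h => hx ((hm ⟨x, hxΔ⟩).mpr h)
        rw [ext_mem Δ _ hxΔ, Perm.ofSubtype_apply_of_not_mem _ hxD]
      · rw [ext_notMem Δ _ hxΔ]

/-- the antisymmetrizer of a set with more than `n` elements kills the colourings with `n`
colours -/
theorem antisymmetrizer_mem_Ann {n : ℕ} {Δ : Finset Ω} (hΔ : n < Δ.card) :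
    antisymmetrizer K Δ ∈ Ann K Ω n := by
  rw [mem_Ann]
  apply Finsupp.lhom_ext
  intro C a
  obtain ⟨x, hx, y, hy, hxy, hC⟩ := exists_ne_map_eq_of_card_lt_of_maps_to (s := Δ)
    (t := (univ : Finset (Fin n))) (f := C) (by rw [card_fin]; exact hΔ) (fun _ _ => mem_univ _)
  rw [← phi_k, k_eq (K := K) (D := (univ : Finset Δ)) (a := ⟨x, hx⟩) (b := ⟨y, hy⟩)
    (mem_univ _) (mem_univ _) (fun h => hxy (congrArg Subtype.val h)), map_mul, map_mul,
    Module.End.mul_apply]
  have h1 : col K Ω n (phi K Δ (1 - o K (swap (⟨x, hx⟩ : Δ) ⟨y, hy⟩))) (Finsupp.single C a) = 0 := by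
    rw [map_sub, map_one, phi_o, map_sub, map_one, LinearMap.sub_apply, Module.End.one_apply,
      col_of, sub_eq_zero]
    congr 1
    funext z
    rw [← map_inv, swap_inv]
    change C z = C ((ext Δ (swap ⟨x, hx⟩ ⟨y, hy⟩) : Perm Ω) z)
    by_cases hz : z ∈ Δ
    · rw [ext_mem Δ _ hz]
      by_cases h1 : z = x
      · subst h1
        rw [swap_apply_left, hC]
      · by_cases h2 : z = y
        · subst h2
          rw [swap_apply_right, hC]
        · rw [swap_apply_of_ne_of_ne (fun h => h1 (congrArg Subtype.val h))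
            (fun h => h2 (congrArg Subtype.val h))]
    · rw [ext_notMem Δ _ hz]
  rw [h1, map_zero, LinearMap.zero_apply]

/-- the independence of the permutations without long decreasing subsequences -/
theorem indep {d : ℕ} (hd : 1 ≤ d) {Δ : Finset Ω} {r : Δ → ℕ} (hr : Function.Injective r)
    {x : MonoidAlgebra K (Perm Δ)}
    (hx : x ∈ Submodule.span K {x | ∃ τ : Perm Δ, NoDecr r (d + 1) τ ∧ x = o K τ})
    (hA : phi K Δ x ∈ Ann K Ω d) : x = 0 := by
  classical
  -- write `x` as a combination of good permutations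
  obtain ⟨c, hc⟩ : ∃ c : Perm Δ → K, (∀ σ, c σ ≠ 0 → NoDecr r (d + 1) σ) ∧
      x = ∑ σ, c σ • o K σ := by
    clear hA
    induction hx using Submodule.span_induction with
    | mem x hx =>
      obtain ⟨τ, hτ, rfl⟩ := hx
      refine ⟨fun σ => if σ = τ then 1 else 0, ?_, ?_⟩
      · intro σ hσ
        by_cases h : σ = τ
        · rw [h]; exact hτ
        · simp [h] at hσ
      · rw [sum_eq_single_of_mem τ (mem_univ _)]
        · simp
        · intro σ _ hσ
          simp [hσ]
    | zero => exact ⟨fun _ => 0, fun σ hσ => absurd rfl hσ, by simp⟩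
    | add x y _ _ hx hy =>
      obtain ⟨c, hc1, hc2⟩ := hx
      obtain ⟨c', hc1', hc2'⟩ := hy
      refine ⟨fun σ => c σ + c' σ, ?_, ?_⟩
      · intro σ hσ
        by_cases h : c σ = 0
        · apply hc1'
          intro h'
          apply hσ
          simp [h, h']
        · exact hc1 σ h
      · rw [hc2, hc2', ← sum_add_distrib]
        apply sum_congr rfl
        intro σ _
        rw [add_smul]
    | smul a x _ hx =>
      obtain ⟨c, hc1, hc2⟩ := hx
      refine ⟨fun σ => a * c σ, ?_, ?_⟩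
      · intro σ hσ
        exact hc1 σ (right_ne_zero_of_mul hσ)
      · rw [hc2, smul_sum]
        apply sum_congr rfl
        intro σ _
        rw [smul_smul]
  obtain ⟨hc1, hc2⟩ := hc
  by_contra hx0
  -- the largest permutation
  have hne : (univ.filter (fun σ => c σ ≠ 0)).Nonempty := by
    by_contra hcon
    rw [not_nonempty_iff_eq_empty, filter_eq_empty_iff] at hcon
    apply hx0
    rw [hc2]
    apply sum_eq_zero
    intro σ hσ
    have := hcon hσ
    push Not at this
    rw [this, zero_smul]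
  have hwf : WellFounded (fun σ τ : Perm Δ => Lx r τ σ) := by
    have : IsTrans (Perm Δ) (fun σ τ : Perm Δ => Lx r τ σ) :=
      ⟨fun _ _ _ h1 h2 => Lx_trans hr h2 h1⟩
    have : Std.Irrefl (fun σ τ : Perm Δ => Lx r τ σ) := ⟨fun σ => Lx_irrefl r σ⟩
    exact Finite.wellFounded_of_trans_of_irrefl _
  obtain ⟨σ, hσ, hmax⟩ := hwf.has_min (univ.filter (fun σ => c σ ≠ 0) : Set (Perm Δ))
    (by exact_mod_cast hne)
  have hσc : c σ ≠ 0 := by simpa using hσ
  obtain ⟨C₀, hC₀⟩ := exists_colouring hr hd (hc1 σ hσc)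
  -- extend the colouring
  let C : Ω → Fin d := fun z => if hz : z ∈ Δ then C₀ ⟨z, hz⟩ else ⟨0, hd⟩
  have hCΔ : ∀ z : Δ, C z = C₀ z := by
    intro z
    simp only [C, dif_pos z.2]
  have h1 := LinearMap.congr_fun (mem_Ann.mp hA) (Finsupp.single C 1)
  rw [LinearMap.zero_apply, hc2, map_sum, map_sum, LinearMap.sum_apply] at h1
  have h2 : ∀ τ : Perm Δ, (col K Ω d) (phi K Δ (c τ • o K τ)) (Finsupp.single C 1) =
      Finsupp.single (C ∘ (((ext Δ τ)⁻¹ : FSym Ω) : Perm Ω)) (c τ) := by
    intro τ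
    rw [map_smul, map_smul, phi_o, LinearMap.smul_apply, col_of, Finsupp.smul_single,
      smul_eq_mul, mul_one]
  simp only [h2] at h1
  have h3 := DFunLike.congr_fun h1 (C ∘ (((ext Δ σ)⁻¹ : FSym Ω) : Perm Ω))
  rw [Finsupp.finsetSum_apply, sum_eq_single_of_mem σ (mem_univ _)] at h3
  · rw [Finsupp.single_eq_same] at h3
    exact hσc h3
  · intro τ _ hτ
    by_cases hcτ : c τ = 0
    · rw [hcτ]; simp
    · apply Finsupp.single_eq_of_ne
      intro h
      have h4 : ∀ z, C₀ (τ⁻¹ z) = C₀ (σ⁻¹ z) := by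
        intro z
        have := congrFun h (z : Ω)
        simp only [Function.comp] at this
        rw [← map_inv, ← map_inv, ext_mem Δ _ z.2, ext_mem Δ _ z.2, hCΔ, hCΔ] at this
        exact this.symm
      exact hmax τ (by simpa using hcτ) (Lx_of_colouring hr hC₀ hτ h4)

/-- **Theorem C.** -/
theorem Ann_le {d : ℕ} {I : TwoSidedIdeal (MonoidAlgebra K (FSym Ω))}
    (h : ∀ Δ : Finset Ω, Δ.card = d + 1 → antisymmetrizer K Δ ∈ I) (hΩ : Nonempty Ω) :
    Ann K Ω d ≤ I := by
  rcases Nat.eq_zero_or_pos d with rfl | hd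
  · obtain ⟨ω⟩ := hΩ
    have h1 : antisymmetrizer K ({ω} : Finset Ω) ∈ I := h _ (card_singleton _)
    have h2 : antisymmetrizer K ({ω} : Finset Ω) = 1 := by
      have h3 : (univ : Finset ({ω} : Finset Ω)) = {⟨ω, mem_singleton_self ω⟩} := by
        ext z
        rw [mem_singleton]
        refine ⟨fun _ => Subtype.ext (mem_singleton.mp z.2), fun _ => mem_univ _⟩
      rw [← phi_k, h3, k_singleton, map_one]
    rw [h2] at h1
    intro x _
    have := I.mul_mem_left x 1 h1
    rwa [mul_one] at this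
  intro x hx
  -- a finite set carrying `x`
  obtain ⟨Δ, hΔ⟩ : ∃ Δ : Finset Ω, ∀ σ ∈ x.coeff.support, ∀ z, z ∉ Δ → (σ : Perm Ω) z = z := by
    have : ∀ σ : FSym Ω, ∃ D : Finset Ω, ∀ z, z ∉ D → (σ : Perm Ω) z = z := by
      intro σ
      refine ⟨(mem_FSym.mp σ.2).toFinset, fun z hz => ?_⟩
      rw [Set.Finite.mem_toFinset] at hz
      by_contra hcon
      exact hz hcon
    choose D hD using this
    refine ⟨x.coeff.support.biUnion D, fun σ hσ z hz => hD σ z (fun h => hz ?_)⟩
    exact mem_biUnion.mpr ⟨σ, hσ, h⟩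
  obtain ⟨y, hy⟩ : ∃ y : MonoidAlgebra K (Perm Δ), phi K Δ y = x := by
    have : ∀ σ ∈ x.coeff.support, ∃ τ : Perm Δ, ext Δ τ = σ := fun σ hσ =>
      exists_ext Δ σ (hΔ σ hσ)
    choose! g hg using this
    refine ⟨∑ σ ∈ x.coeff.support, x.coeff σ • o K (g σ), ?_⟩
    rw [map_sum]
    conv_rhs => rw [expand x (subset_refl _)]
    apply sum_congr rfl
    intro σ hσ
    rw [map_smul, phi_o, hg σ hσ]
  set r : Δ → ℕ := fun z => (Fintype.equivFin Δ z : ℕ) with hr'
  have hr : Function.Injective r := by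
    intro a b hab
    exact (Fintype.equivFin Δ).injective (Fin.ext hab)
  set J : TwoSidedIdeal (MonoidAlgebra K (Perm Δ)) := (I ⊓ Ann K Ω d).comap (phi K Δ) with hJ
  have hJk : ∀ D : Finset Δ, D.card = d + 1 → k K D ∈ J := by
    intro D hD
    rw [hJ, TwoSidedIdeal.mem_comap, phi_kD, TwoSidedIdeal.mem_inf]
    have hc : (D.map (Function.Embedding.subtype (· ∈ Δ))).card = d + 1 := by
      rw [card_map, hD]
    exact ⟨h _ hc, antisymmetrizer_mem_Ann (by rw [hc]; exact Nat.lt_succ_self d)⟩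
  have hys : y ∈ Submodule.span K {x | ∃ τ : Perm Δ, NoDecr r (d + 1) τ ∧ x = o K τ} ⊔
      sub K J := by
    rw [expand y (subset_refl _)]
    apply Submodule.sum_mem
    intro σ _
    exact Submodule.smul_mem _ _ (straighten hr hJk σ)
  obtain ⟨u, hu, v, hv, huv⟩ := Submodule.mem_sup.mp hys
  have hv' : phi K Δ v ∈ I ∧ phi K Δ v ∈ Ann K Ω d := by
    have h1 : v ∈ J := hv
    rwa [hJ, TwoSidedIdeal.mem_comap, TwoSidedIdeal.mem_inf] at h1
  have hu0 : u = 0 := by
    apply indep hd hr hu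
    have : u = y - v := by rw [← huv]; abel
    rw [this, map_sub, hy]
    exact (Ann K Ω d).sub_mem hx hv'.2
  rw [← hy, ← huv, hu0, zero_add]
  exact hv'.1

end FinSym
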