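import Pool.Agent.Lib.MP_a8d7f7_al.Subsets

/-!
# MP_a8d7f7_al: symmetrizers, antisymmetrizers and columns in `K[Perm α]` (helper62)
-/

set_option autoImplicit false
set_option linter.unusedSectionVars false
set_option linter.unusedVariables false

namespace FinSym

open Finset Equiv

variable {K : Type*} [Field K] {α : Type*} [Fintype α] [DecidableEq α]

/-- the subgroup of permutations moving only letters of `D` -/
def PS (D : Finset α) : Subgroup (Perm α) where
  carrier := {σ | ∀ x, x ∉ D → σ x = x}
  mul_mem' := by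
    intro a b ha hb x hx
    rw [Perm.mul_apply, hb x hx, ha x hx]
  one_mem' := by intro x _; rfl
  inv_mem' := by
    intro a ha x hx
    rw [Perm.inv_eq_iff_eq, ha x hx]

theorem mem_PS {D : Finset α} {σ : Perm α} : σ ∈ PS D ↔ ∀ x, x ∉ D → σ x = x := Iff.rfl

theorem PS_mono {D D' : Finset α} (h : D ⊆ D') : PS D ≤ PS D' :=
  fun _ hσ x hx => hσ x (fun h' => hx (h h'))

theorem PS_maps {D : Finset α} {σ : Perm α} (hσ : σ ∈ PS D) {x : α} (hx : x ∈ D) : σ x ∈ D := by
  by_contra h
  have h1 : σ (σ x) = σ x := hσ _ h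
  exact h (by rw [σ.injective h1]; exact hx)

theorem swap_mem_PS {D : Finset α} {a b : α} (ha : a ∈ D) (hb : b ∈ D) : swap a b ∈ PS D := by
  intro x hx
  exact swap_apply_of_ne_of_ne (fun h => hx (h ▸ ha)) (fun h => hx (h ▸ hb))

theorem PS_commute {D D' : Finset α} (h : Disjoint D D') {σ τ : Perm α} (hσ : σ ∈ PS D)
    (hτ : τ ∈ PS D') : σ * τ = τ * σ := by
  ext x
  rw [Perm.mul_apply, Perm.mul_apply]
  by_cases hx : x ∈ D
  · have hx' : x ∉ D' := fun h' => (disjoint_left.mp h hx h')
    have hx'' : σ x ∉ D' := fun h' => (disjoint_left.mp h (PS_maps hσ hx) h')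
    rw [hτ x hx', hτ _ hx'']
  · by_cases hx' : x ∈ D'
    · have hx'' : τ x ∉ D := fun h' => (disjoint_left.mp h h' (PS_maps hτ hx'))
      rw [hσ x hx, hσ _ hx'']
    · rw [hτ x hx', hσ x hx, hτ x hx']

noncomputable instance (D : Finset α) : DecidablePred (· ∈ PS D) := Classical.decPred _

/-- the group element in the group algebra -/
noncomputable abbrev o (K : Type*) [Field K] {α : Type*} (σ : Perm α) :
    MonoidAlgebra K (Perm α) := MonoidAlgebra.of K (Perm α) σ

omit [Fintype α] [DecidableEq α] in
theorem o_one : o K (1 : Perm α) = 1 := (MonoidAlgebra.of K (Perm α)).map_one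

omit [Fintype α] [DecidableEq α] in
theorem o_mul (σ τ : Perm α) : o K (σ * τ) = o K σ * o K τ :=
  (MonoidAlgebra.of K (Perm α)).map_mul σ τ

/-- sign in `K` -/
noncomputable def sg (K : Type*) [Field K] {α : Type*} [Fintype α] [DecidableEq α]
    (σ : Perm α) : K := ((Perm.sign σ : ℤ) : K)

theorem sg_mul (σ τ : Perm α) : sg K (σ * τ) = sg K σ * sg K τ := by
  unfold sg; rw [Perm.sign_mul]; push_cast; rfl

theorem sg_one : sg K (1 : Perm α) = 1 := by unfold sg; simp

theorem sg_swap {a b : α} (h : a ≠ b) : sg K (swap a b) = -1 := by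
  unfold sg; rw [Perm.sign_swap h]; simp

/-- symmetrizer -/
noncomputable def e (K : Type*) [Field K] {α : Type*} [Fintype α] [DecidableEq α]
    (D : Finset α) : MonoidAlgebra K (Perm α) := ∑ σ ∈ univ.filter (· ∈ PS D), o K σ

/-- antisymmetrizer -/
noncomputable def k (K : Type*) [Field K] {α : Type*} [Fintype α] [DecidableEq α]
    (D : Finset α) : MonoidAlgebra K (Perm α) := ∑ σ ∈ univ.filter (· ∈ PS D), sg K σ • o K σ

/-- elements of the group algebra supported on permutations of `D` -/
noncomputable def AD (K : Type*) [Field K] {α : Type*} (D : Finset α) [Fintype α] [DecidableEq α] :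
    Subalgebra K (MonoidAlgebra K (Perm α)) :=
  Algebra.adjoin K ((fun σ => o K σ) '' (PS D : Set (Perm α)))

theorem o_mem_AD {D : Finset α} {σ : Perm α} (h : σ ∈ PS D) : o K σ ∈ AD K D :=
  Algebra.subset_adjoin ⟨σ, h, rfl⟩

theorem AD_mono {D D' : Finset α} (h : D ⊆ D') : AD K D ≤ AD K D' :=
  Algebra.adjoin_mono (Set.image_mono (fun _ hσ => PS_mono h hσ))

theorem e_mem_AD (D : Finset α) : e K D ∈ AD K D :=
  Subalgebra.sum_mem _ (fun σ hσ => o_mem_AD (mem_filter.mp hσ).2)

theorem k_mem_AD (D : Finset α) : k K D ∈ AD K D :=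
  Subalgebra.sum_mem _ (fun σ hσ => Subalgebra.smul_mem _ (o_mem_AD (mem_filter.mp hσ).2) _)

theorem AD_commute {D D' : Finset α} (h : Disjoint D D') {a b : MonoidAlgebra K (Perm α)}
    (ha : a ∈ AD K D) (hb : b ∈ AD K D') : a * b = b * a := by
  have h1 : ∀ σ ∈ PS D, Commute (o K σ) b := by
    intro σ hσ
    refine Algebra.commute_of_mem_adjoin_of_forall_mem_commute hb ?_
    rintro _ ⟨τ, hτ, rfl⟩
    change o K σ * o K τ = o K τ * o K σ
    rw [← map_mul, ← map_mul, PS_commute h hσ hτ]
  have h2 : Commute b a := by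
    refine Algebra.commute_of_mem_adjoin_of_forall_mem_commute ha ?_
    rintro _ ⟨σ, hσ, rfl⟩
    exact (h1 σ hσ).symm
  exact h2.symm

theorem o_mul_e {D : Finset α} {σ : Perm α} (hσ : σ ∈ PS D) : o K σ * e K D = e K D := by
  unfold e
  rw [mul_sum]
  refine sum_bij' (fun τ _ => σ * τ) (fun τ _ => σ⁻¹ * τ) ?_ ?_ ?_ ?_ ?_
  · intro τ hτ
    rw [mem_filter] at hτ ⊢
    exact ⟨mem_univ _, (PS D).mul_mem hσ hτ.2⟩
  · intro τ hτ
    rw [mem_filter] at hτ ⊢
    exact ⟨mem_univ _, (PS D).mul_mem ((PS D).inv_mem hσ) hτ.2⟩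
  · intro τ _; simp
  · intro τ _; simp
  · intro τ _
    rw [← map_mul]

/-- adding a letter to an antisymmetrizer -/
theorem k_insert {X : Finset α} {y : α} (hy : y ∉ X) :
    k K (insert y X) = (1 - ∑ l ∈ X, o K (swap l y)) * k K X := by
  have hfib : k K (insert y X) = ∑ l ∈ insert y X, ∑ σ ∈ (univ.filter (· ∈ PS (insert y X))).filter
      (fun σ => σ y = l), sg K σ • o K σ := by
    unfold k
    rw [sum_fiberwise_of_maps_to]
    intro σ hσ
    exact PS_maps (mem_filter.mp hσ).2 (mem_insert_self _ _)
  have hl : ∀ l ∈ insert y X, ∑ σ ∈ (univ.filter (· ∈ PS (insert y X))).filter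
      (fun σ => σ y = l), sg K σ • o K σ = (sg K (swap l y) • o K (swap l y)) * k K X := by
    intro l hl
    unfold k
    rw [mul_sum]
    refine sum_bij' (fun σ _ => swap l y * σ) (fun τ _ => swap l y * τ) ?_ ?_ ?_ ?_ ?_
    · intro σ hσ
      rw [mem_filter, mem_filter] at hσ
      rw [mem_filter]
      refine ⟨mem_univ _, ?_⟩
      intro x hx
      rw [Perm.mul_apply]
      by_cases hxy : x = y
      · rw [hxy, hσ.2, swap_apply_left]
      · have hx' : x ∉ insert y X := by
          rw [mem_insert, not_or]; exact ⟨hxy, hx⟩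
        rw [hσ.1.2 x hx']
        exact swap_apply_of_ne_of_ne (fun h => hx' (h ▸ hl)) hxy
    · intro τ hτ
      rw [mem_filter] at hτ
      rw [mem_filter, mem_filter]
      refine ⟨⟨mem_univ _, (PS _).mul_mem (swap_mem_PS hl (mem_insert_self _ _))
        (PS_mono (subset_insert _ _) hτ.2)⟩, ?_⟩
      rw [Perm.mul_apply, hτ.2 y hy, swap_apply_right]
    · intro σ _
      rw [← mul_assoc, swap_mul_self, one_mul]
    · intro σ _
      rw [← mul_assoc, swap_mul_self, one_mul]
    · intro σ _
      rw [smul_mul_smul_comm, ← sg_mul, ← map_mul, ← mul_assoc, swap_mul_self, one_mul]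
  rw [hfib, sum_congr rfl hl, sum_insert hy, swap_self]
  have h1 : ∀ l ∈ X, (sg K (swap l y) • o K (swap l y)) * k K X =
      - (o K (swap l y) * k K X) := by
    intro l hl
    rw [sg_swap (fun h => by rw [h] at hl; exact hy hl), neg_one_smul, neg_mul]
  rw [sum_congr rfl h1, sum_neg_distrib, ← sum_mul, sub_mul, one_mul, sub_eq_add_neg]
  congr 1
  have : (Equiv.refl α : Perm α) = 1 := rfl
  rw [this, sg_one, o_one, one_smul, one_mul]

theorem k_singleton (x : α) : k K ({x} : Finset α) = 1 := by
  unfold k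
  have : univ.filter (· ∈ PS ({x} : Finset α)) = {1} := by
    ext σ
    rw [mem_filter, mem_singleton]
    constructor
    · rintro ⟨-, h⟩
      ext z
      by_cases hz : z = x
      · have := PS_maps h (mem_singleton_self x)
        rw [mem_singleton] at this
        rw [hz, this]; rfl
      · rw [h z (by rw [mem_singleton]; exact hz)]; rfl
    · rintro rfl
      exact ⟨mem_univ _, (PS _).one_mem⟩
  rw [this, sum_singleton, sg_one, one_smul, o_one]

/-! ### Products of differences -/

/-- `∏ (1 - (b, y b))` over a list of letters -/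
noncomputable def P (K : Type*) [Field K] {α : Type*} [DecidableEq α] (y : α → α) (l : List α) :
    MonoidAlgebra K (Perm α) := (l.map (fun b => 1 - o K (swap b (y b)))).prod

theorem P_nil (y : α → α) : P K y [] = 1 := rfl

theorem P_cons (y : α → α) (b : α) (l : List α) :
    P K y (b :: l) = (1 - o K (swap b (y b))) * P K y l := by
  unfold P; rw [List.map_cons, List.prod_cons]

theorem P_append (y : α → α) (l l' : List α) : P K y (l ++ l') = P K y l * P K y l' := by
  unfold P; rw [List.map_append, List.prod_append]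

theorem P_mem_AD (y : α → α) (l : List α) (D : Finset α) (h : ∀ b ∈ l, b ∈ D ∧ y b ∈ D) :
    P K y l ∈ AD K D := by
  induction l with
  | nil => exact Subalgebra.one_mem _
  | cons b l ih =>
    rw [P_cons]
    refine Subalgebra.mul_mem _ (Subalgebra.sub_mem _ (Subalgebra.one_mem _) ?_)
      (ih (fun b' hb' => h b' (List.mem_cons_of_mem _ hb')))
    exact o_mem_AD (swap_mem_PS (h b List.mem_cons_self).1 (h b List.mem_cons_self).2)

/-- the hypotheses on the partner map -/
structure Partner (y : α → α) (B : Finset α) : Prop where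
  inj : ∀ b ∈ B, ∀ b' ∈ B, y b = y b' → b = b'
  out : ∀ b ∈ B, y b ∉ B

theorem Partner.mono {y : α → α} {B B' : Finset α} (h : Partner y B) (hB : B' ⊆ B) :
    Partner y B' :=
  ⟨fun b hb b' hb' => h.inj b (hB hb) b' (hB hb'), fun b hb hb' => h.out b (hB hb) (hB hb')⟩

theorem Partner.pair_disjoint {y : α → α} {B : Finset α} (h : Partner y B) {b b' : α} (hb : b ∈ B)
    (hb' : b' ∈ B) (hne : b ≠ b') : Disjoint ({b, y b} : Finset α) {b', y b'} := by
  rw [disjoint_left]
  intro z hz hz'
  rw [mem_insert, mem_singleton] at hz hz'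
  rcases hz with rfl | rfl
  · rcases hz' with rfl | h1
    · exact hne rfl
    · exact h.out b' hb' (h1 ▸ hb)
  · rcases hz' with h1 | h1
    · exact h.out b hb (h1 ▸ hb')
    · exact hne (h.inj b hb b' hb' h1)

theorem Partner.factor_commute {y : α → α} {B : Finset α} (h : Partner y B) {b b' : α} (hb : b ∈ B)
    (hb' : b' ∈ B) : Commute (1 - o K (swap b (y b))) (1 - o K (swap b' (y b'))) := by
  by_cases hne : b = b'
  · subst hne; exact Commute.refl _
  · have hc : Commute (o K (swap b (y b))) (o K (swap b' (y b'))) :=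
      AD_commute (h.pair_disjoint hb hb' hne) (o_mem_AD (swap_mem_PS (by simp) (by simp)))
        (o_mem_AD (swap_mem_PS (by simp) (by simp)))
    exact ((Commute.one_left _).sub_left ((Commute.one_right _).sub_right hc))

theorem P_perm {y : α → α} {B : Finset α} (h : Partner y B) {l l' : List α} (hl : ∀ b ∈ l, b ∈ B)
    (hp : l.Perm l') : P K y l = P K y l' := by
  unfold P
  apply List.Perm.prod_eq' (hp.map _)
  rw [List.pairwise_map]
  apply List.pairwise_of_forall_mem_list
  intro b hb b' hb'
  exact h.factor_commute (hl b hb) (hl b' hb')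

theorem P_factor {y : α → α} {B : Finset α} (h : Partner y B) {l : List α} (hl : ∀ b ∈ l, b ∈ B)
    {b : α} (hb : b ∈ l) : ∃ a, P K y l = a * (1 - o K (swap b (y b))) := by
  refine ⟨P K y (l.erase b), ?_⟩
  have h1 : l.Perm (l.erase b ++ [b]) :=
    (List.perm_cons_erase hb).trans (List.perm_append_singleton b _).symm
  rw [P_perm h hl h1, P_append, P_cons, P_nil, mul_one]

/-- **Lemma A.** -/
theorem lemmaA {y : α → α} {x : α} {D : Finset α} (hx : x ∉ D) (h : Partner y (insert x D))
    {l : List α} (hl : ∀ b, b ∈ l ↔ b ∈ D) (v : MonoidAlgebra K (Perm α))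
    (hv : ∀ b ∈ D, o K (swap (y x) (y b)) * v = v) :
    P K y l * (1 - o K (swap x (y x))) * k K (insert x D) * v =
      P K y l * k K (insert (y x) (insert x D)) * v := by
  have hyx : y x ∉ insert x D := h.out x (mem_insert_self _ _)
  rw [k_insert hyx, sum_insert hx]
  have key : ∀ b ∈ D, P K y l * (o K (swap b (y x)) * k K (insert x D)) * v = 0 := by
    intro b hb
    have hbi : b ∈ insert x D := mem_insert_of_mem hb
    have hbx : b ≠ x := fun he => hx (he ▸ hb)
    obtain ⟨a, ha⟩ := P_factor (K := K) (h.mono (subset_insert _ _)) (fun b hb => (hl b).mp hb)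
      ((hl b).mpr hb)
    rw [ha]
    have hyb : y b ∉ insert x D := h.out b hbi
    have hne : y x ≠ y b := fun he => hbx (h.inj x (mem_insert_self _ _) b hbi he).symm
    have hbyx : b ≠ y x := fun he => hyx (he ▸ hbi)
    have hbyb : b ≠ y b := fun he => hyb (he ▸ hbi)
    -- conjugation
    have hconj : swap b (y b) * swap b (y x) = swap b (y x) * swap (y x) (y b) := by
      ext z
      simp only [Perm.mul_apply]
      by_cases h1 : z = b
      · subst h1
        rw [swap_apply_left, swap_apply_of_ne_of_ne hbyx.symm hne,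
          swap_apply_of_ne_of_ne hbyx hbyb, swap_apply_left]
      · by_cases h2 : z = y x
        · subst h2
          rw [swap_apply_right, swap_apply_left, swap_apply_left,
            swap_apply_of_ne_of_ne hbyb.symm hne.symm]
        · by_cases h3 : z = y b
          · subst h3
            rw [swap_apply_of_ne_of_ne hbyb.symm hne.symm, swap_apply_right, swap_apply_right,
              swap_apply_right]
          · rw [swap_apply_of_ne_of_ne h1 h2, swap_apply_of_ne_of_ne h1 h3,
              swap_apply_of_ne_of_ne h2 h3, swap_apply_of_ne_of_ne h1 h2]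
    have hdis : Disjoint ({y x, y b} : Finset α) (insert x D) := by
      rw [disjoint_left]
      intro z hz
      rw [mem_insert, mem_singleton] at hz
      rcases hz with rfl | rfl
      · exact hyx
      · exact hyb
    have hcomm : o K (swap (y x) (y b)) * k K (insert x D) =
        k K (insert x D) * o K (swap (y x) (y b)) :=
      AD_commute hdis (o_mem_AD (swap_mem_PS (by simp) (by simp))) (k_mem_AD _)
    have h1 : (1 - o K (swap b (y b))) * (o K (swap b (y x)) * k K (insert x D)) * v = 0 := by
      rw [sub_mul, one_mul, ← mul_assoc (o K (swap b (y b))), ← o_mul, hconj, o_mul,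
        mul_assoc (o K (swap b (y x))), hcomm, sub_mul, mul_assoc, mul_assoc, mul_assoc, hv b hb,
        sub_self]
    rw [mul_assoc a, mul_assoc a, h1, mul_zero]
  have h2 : P K y l * (∑ b ∈ D, o K (swap b (y x)) * k K (insert x D)) * v = 0 := by
    rw [mul_sum, sum_mul]
    exact sum_eq_zero key
  have h3 : (1 - (o K (swap x (y x)) + ∑ b ∈ D, o K (swap b (y x)))) * k K (insert x D) =
      (1 - o K (swap x (y x))) * k K (insert x D) -
        ∑ b ∈ D, o K (swap b (y x)) * k K (insert x D) := by
    rw [← sub_sub, sub_mul, sum_mul]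
  rw [h3, mul_sub (P K y l) ((1 - o K (swap x (y x))) * k K (insert x D))
    (∑ b ∈ D, o K (swap b (y x)) * k K (insert x D)),
    sub_mul (P K y l * ((1 - o K (swap x (y x))) * k K (insert x D))) _ v, h2, sub_zero,
    ← mul_assoc (P K y l)]

end FinSym
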