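import Pool.Agent.Lib.MP_a8d7f7_al.Stage2

/-!
# MP_a8d7f7_al: the diagonal argument (helper62)
-/

set_option autoImplicit false
set_option linter.unusedSectionVars false
set_option linter.unusedVariables false

namespace FinSym

open Finset Equiv

variable {K : Type*} [Field K] {α : Type*} [Fintype α] [DecidableEq α]

/-- the sum of the even permutations of `D` -/
noncomputable def ev (K : Type*) [Field K] {α : Type*} [Fintype α] [DecidableEq α]
    (D : Finset α) : MonoidAlgebra K (Perm α) :=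
  ∑ σ ∈ univ.filter (fun σ : Perm α => σ ∈ PS D ∧ Perm.sign σ = 1), o K σ

theorem ev_mem_AD (D : Finset α) : ev K D ∈ AD K D :=
  Subalgebra.sum_mem _ (fun σ hσ => o_mem_AD (mem_filter.mp hσ).2.1)

theorem odd_left {D : Finset α} {a b : α} (ha : a ∈ D) (hb : b ∈ D) (hab : a ≠ b) :
    ∑ σ ∈ univ.filter (fun σ : Perm α => σ ∈ PS D ∧ ¬ Perm.sign σ = 1), o K σ =
      o K (swap a b) * ev K D := by
  unfold ev
  rw [mul_sum]
  refine sum_bij' (fun σ _ => swap a b * σ) (fun σ _ => swap a b * σ) ?_ ?_ ?_ ?_ ?_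
  · intro σ hσ
    rw [mem_filter] at hσ ⊢
    refine ⟨mem_univ _, (PS D).mul_mem (swap_mem_PS ha hb) hσ.2.1, ?_⟩
    rw [Perm.sign_mul, Perm.sign_swap hab]
    rcases Int.units_eq_one_or (Perm.sign σ) with h | h
    · exact absurd h hσ.2.2
    · rw [h]; rfl
  · intro σ hσ
    rw [mem_filter] at hσ ⊢
    refine ⟨mem_univ _, (PS D).mul_mem (swap_mem_PS ha hb) hσ.2.1, ?_⟩
    rw [Perm.sign_mul, Perm.sign_swap hab, hσ.2.2]
    decide
  · intro σ _
    rw [← mul_assoc, swap_mul_self, one_mul]
  · intro σ _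
    rw [← mul_assoc, swap_mul_self, one_mul]
  · intro σ _
    rw [← map_mul, ← mul_assoc, swap_mul_self, one_mul]

theorem odd_right {D : Finset α} {a b : α} (ha : a ∈ D) (hb : b ∈ D) (hab : a ≠ b) :
    ∑ σ ∈ univ.filter (fun σ : Perm α => σ ∈ PS D ∧ ¬ Perm.sign σ = 1), o K σ =
      ev K D * o K (swap a b) := by
  unfold ev
  rw [sum_mul]
  refine sum_bij' (fun σ _ => σ * swap a b) (fun σ _ => σ * swap a b) ?_ ?_ ?_ ?_ ?_
  · intro σ hσ
    rw [mem_filter] at hσ ⊢
    refine ⟨mem_univ _, (PS D).mul_mem hσ.2.1 (swap_mem_PS ha hb), ?_⟩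
    rw [Perm.sign_mul, Perm.sign_swap hab]
    rcases Int.units_eq_one_or (Perm.sign σ) with h | h
    · exact absurd h hσ.2.2
    · rw [h]; rfl
  · intro σ hσ
    rw [mem_filter] at hσ ⊢
    refine ⟨mem_univ _, (PS D).mul_mem hσ.2.1 (swap_mem_PS ha hb), ?_⟩
    rw [Perm.sign_mul, Perm.sign_swap hab, hσ.2.2]
    decide
  · intro σ _
    rw [mul_assoc, swap_mul_self, mul_one]
  · intro σ _
    rw [mul_assoc, swap_mul_self, mul_one]
  · intro σ _
    rw [← map_mul, mul_assoc, swap_mul_self, mul_one]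

theorem e_eq {D : Finset α} {a b : α} (ha : a ∈ D) (hb : b ∈ D) (hab : a ≠ b) :
    e K D = (1 + o K (swap a b)) * ev K D := by
  rw [add_mul, one_mul, ← odd_left ha hb hab]
  unfold e ev
  rw [← sum_filter_add_sum_filter_not (univ.filter (· ∈ PS D)) (fun σ => Perm.sign σ = 1),
    filter_filter, filter_filter]

theorem k_eq {D : Finset α} {a b : α} (ha : a ∈ D) (hb : b ∈ D) (hab : a ≠ b) :
    k K D = ev K D * (1 - o K (swap a b)) := by
  rw [mul_sub, mul_one, ← odd_right ha hb hab]
  unfold k ev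
  rw [← sum_filter_add_sum_filter_not (univ.filter (· ∈ PS D)) (fun σ => Perm.sign σ = 1),
    filter_filter, filter_filter, sub_eq_add_neg, ← sum_neg_distrib]
  congr 1
  · apply sum_congr rfl
    intro σ hσ
    rw [mem_filter] at hσ
    unfold sg
    rw [hσ.2.2]
    simp
  · apply sum_congr rfl
    intro σ hσ
    rw [mem_filter] at hσ
    rcases Int.units_eq_one_or (Perm.sign σ) with h | h
    · exact absurd h hσ.2.2
    · unfold sg
      rw [h]
      simp

theorem Kap_mem {B : Finset α} {cols : List (α × Finset α)} (h : ∀ c ∈ cols, F c ⊆ B) :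
    Kap K cols ∈ AD K B := by
  unfold Kap
  induction cols with
  | nil => exact Subalgebra.one_mem _
  | cons c cols ih =>
    rw [List.map_cons, List.prod_cons]
    exact Subalgebra.mul_mem _ (AD_mono (h c List.mem_cons_self) (k_mem_AD _))
      (ih (fun c' hc' => h c' (List.mem_cons_of_mem _ hc')))

/-- the union of the columns -/
def uc : List (α × Finset α) → Finset α
  | [] => ∅
  | c :: cols => F c ∪ uc cols

theorem mem_uc {cols : List (α × Finset α)} {z : α} : z ∈ uc cols ↔ ∃ c ∈ cols, z ∈ F c := by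
  induction cols with
  | nil => simp [uc]
  | cons c cols ih =>
    rw [uc, mem_union, ih]
    simp only [List.mem_cons, exists_eq_or_imp]

theorem Kap_factor {B : Finset α} : ∀ {cols : List (α × Finset α)}, Sys B cols →
    ∀ {c : α × Finset α}, c ∈ cols → ∀ {a b : α}, a ∈ F c → b ∈ F c → a ≠ b →
    ∃ x, Kap K cols = x * (1 - o K (swap a b)) := by
  intro cols
  induction cols with
  | nil => intro _ c hc; simp at hc
  | cons c' cols ih =>
    intro hs c hc a b ha hb hab
    have hK : Kap K (c' :: cols) = k K (F c') * Kap K cols := by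
      unfold Kap; rw [List.map_cons, List.prod_cons]
    rw [List.mem_cons] at hc
    rcases hc with rfl | hc
    · have hdis : Disjoint (F c) (uc cols) := by
        rw [disjoint_left]
        intro z hz hz'
        obtain ⟨c', hc', h⟩ := mem_uc.mp hz'
        exact disjoint_left.mp ((List.pairwise_cons.mp hs.disj).1 c' hc') hz h
      have hcomm := AD_commute (K := K) hdis (k_mem_AD _)
        (Kap_mem (K := K) (cols := cols) (B := uc cols) (fun c hc z hz => mem_uc.mpr ⟨c, hc, hz⟩))
      refine ⟨Kap K cols * ev K (F c), ?_⟩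
      rw [hK, hcomm, k_eq ha hb hab, mul_assoc]
    · obtain ⟨x, hx⟩ := ih hs.tail hc ha hb hab
      exact ⟨k K (F c') * x, by rw [hK, hx, mul_assoc]⟩

theorem E_mem (Ys : List (Finset α)) : E K Ys ∈ AD K (un Ys) := by
  induction Ys with
  | nil => exact Subalgebra.one_mem _
  | cons Y Ys ih =>
    rw [E_cons, un_cons]
    exact Subalgebra.mul_mem _ (AD_mono subset_union_left (e_mem_AD _))
      (AD_mono subset_union_right ih)

theorem mem_un {Ys : List (Finset α)} {z : α} : z ∈ un Ys ↔ ∃ Y ∈ Ys, z ∈ Y := by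
  induction Ys with
  | nil => simp [un]
  | cons Y Ys ih =>
    rw [un_cons, mem_union, ih]
    simp only [List.mem_cons, exists_eq_or_imp]

theorem E_factor : ∀ {Ys : List (Finset α)}, Ys.Pairwise Disjoint →
    ∀ {Y : Finset α}, Y ∈ Ys → ∀ {a b : α}, a ∈ Y → b ∈ Y → a ≠ b →
    ∃ x, E K Ys = (1 + o K (swap a b)) * x := by
  intro Ys
  induction Ys with
  | nil => intro _ Y hY; simp at hY
  | cons Y' Ys ih =>
    intro hs Y hY a b ha hb hab
    rw [List.pairwise_cons] at hs
    rw [List.mem_cons] at hY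
    rcases hY with rfl | hY
    · exact ⟨ev K Y * E K Ys, by rw [E_cons, e_eq ha hb hab, mul_assoc]⟩
    · obtain ⟨x, hx⟩ := ih hs.2 hY ha hb hab
      refine ⟨x * e K Y', ?_⟩
      have hdis : Disjoint Y' (un Ys) := by
        rw [disjoint_left]
        intro z hz hz'
        obtain ⟨Y'', hY'', h⟩ := mem_un.mp hz'
        exact disjoint_left.mp (hs.1 Y'' hY'') hz h
      rw [E_cons, AD_commute hdis (e_mem_AD _) (E_mem _), hx, mul_assoc]

/-- the vanishing: a permutation which does not fix the diagonal dies -/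
theorem vanish {n : ℕ} {Ys : List (Finset α)} {cols : List (α × Finset α)} (hv : Valid n Ys cols)
    (hlen : Ys.length = n) (hdis : Ys.Pairwise Disjoint) (d : Fin n → α)
    (hd1 : ∀ i : Fin n, d i ∈ Ys[i]'(by rw [hlen]; exact i.2))
    (hd2 : ∀ i : Fin n, d i ∈ F (cols[i]'(by rw [hv.len]; exact i.2)))
    {σ : Perm α} (hσ : ∀ x, (∀ i, d i ≠ x) → σ x = x) (h1 : σ ≠ 1) :
    Kap K cols * o K σ * E K Ys = 0 := by
  -- a moved diagonal letter
  obtain ⟨i, hi⟩ : ∃ i, σ (d i) ≠ d i := by
    by_contra hcon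
    push Not at hcon
    apply h1
    ext x
    by_cases hx : ∃ i, d i = x
    · obtain ⟨i, rfl⟩ := hx
      exact hcon i
    · push Not at hx
      exact hσ x hx
  -- its image is a diagonal letter
  obtain ⟨j, hj⟩ : ∃ j, d j = σ (d i) := by
    by_contra hcon
    push Not at hcon
    have := hσ _ hcon
    exact hi (σ.injective this)
  have hij : j ≠ i := fun h => hi (by rw [← hj, h])
  have hicol : (j : ℕ) < cols.length := by rw [hv.len]; exact j.2
  have hirow : (i : ℕ) < Ys.length := by rw [hlen]; exact i.2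
  have hjrow : (j : ℕ) < Ys.length := by rw [hlen]; exact j.2
  set c := cols[(j : ℕ)]'hicol with hc
  set Y := Ys[(i : ℕ)]'hirow with hY
  have hcm : c ∈ cols := List.getElem_mem _
  have hYm : Y ∈ Ys := List.getElem_mem _
  -- the letter in row i of column j
  obtain ⟨z, hz⟩ : ∃ z, F c ∩ Y = {z} := card_eq_one.mp (hv.one c hcm Y hYm)
  have hzz : z ∈ F c ∩ Y := by rw [hz]; exact mem_singleton_self z
  rw [mem_inter] at hzz
  have hrows : ∀ (a b : ℕ) (ha : a < Ys.length) (hb : b < Ys.length), a ≠ b →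
      Disjoint Ys[a] Ys[b] := by
    intro a b ha hb hab
    rw [List.pairwise_iff_getElem] at hdis
    rcases lt_or_gt_of_ne hab with h | h
    · exact hdis a b ha hb h
    · exact (hdis b a hb ha h).symm
  have hcols : ∀ (a b : ℕ) (ha : a < cols.length) (hb : b < cols.length), a ≠ b →
      Disjoint (F cols[a]) (F cols[b]) := by
    intro a b ha hb hab
    have := hv.sys.disj
    rw [List.pairwise_iff_getElem] at this
    rcases lt_or_gt_of_ne hab with h | h
    · exact this a b ha hb h
    · exact (this b a hb ha h).symm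
  have hijn : (j : ℕ) ≠ i := fun h => hij (Fin.ext h)
  -- z is not a diagonal letter
  have hzd : ∀ m, d m ≠ z := by
    intro m hm
    by_cases hmj : m = j
    · subst hmj
      exact disjoint_left.mp (hrows _ _ hjrow hirow hijn) (hd1 m) (by rw [hm]; exact hzz.2)
    · refine disjoint_left.mp (hcols _ _ (by rw [hv.len]; exact m.2) hicol
        (fun h => hmj (Fin.ext h))) (hd2 m) (by rw [hm]; exact hzz.1)
  have hσz : σ z = z := hσ z hzd
  have hdj : d j ∈ F c := hd2 j
  have hdi : d i ∈ Y := hd1 i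
  obtain ⟨x, hx⟩ := Kap_factor (K := K) hv.sys hcm hdj hzz.1 (hzd j)
  obtain ⟨x', hx'⟩ := E_factor (K := K) hdis hYm hdi hzz.2 (hzd i)
  have hconj : σ * swap (d i) z = swap (d j) z * σ := by
    have := mul_swap_eq_swap_mul σ (d i) z
    rw [this, hσz, hj]
  rw [hx, hx']
  have h2 : (1 - o K (swap (d j) z)) * o K σ * (1 + o K (swap (d i) z)) = 0 := by
    rw [mul_add, mul_one, mul_assoc _ (o K σ) (o K _), ← o_mul, hconj, o_mul, ← mul_assoc, sub_mul,
      sub_mul, one_mul, one_mul, ← o_mul (swap (d j) z) (swap (d j) z), swap_mul_self, o_one]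
    rw [sub_mul, one_mul]
    abel
  calc x * (1 - o K (swap (d j) z)) * o K σ * ((1 + o K (swap (d i) z)) * x')
      = x * ((1 - o K (swap (d j) z)) * o K σ * (1 + o K (swap (d i) z))) * x' := by
        simp only [mul_assoc]
    _ = 0 := by rw [h2, mul_zero, zero_mul]

end FinSym
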