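import Pool.Agent.Lib.MP_a8d7f7_al.Chain

/-!
# MP_a8d7f7_al: growth and primeness (helper62)
-/

set_option autoImplicit false
set_option linter.unusedSectionVars false
set_option linter.unusedVariables false

namespace FinSym

open Finset Equiv

variable {K : Type*} [Field K] {Ω : Type*}

theorem coeff_col {n : ℕ} (x : MonoidAlgebra K (FSym Ω)) {S : Finset (FSym Ω)}
    (hS : x.coeff.support ⊆ S) (C B : Ω → Fin n)
    [∀ σ : FSym Ω, Decidable (C ∘ ((σ⁻¹ : FSym Ω) : Perm Ω) = B)] :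
    (col K Ω n x (Finsupp.single C 1)) B =
      ∑ σ ∈ S, if C ∘ ((σ⁻¹ : FSym Ω) : Perm Ω) = B then x.coeff σ else 0 := by
  classical
  conv_lhs => rw [expand x hS, map_sum, LinearMap.sum_apply]
  rw [Finsupp.finsetSum_apply]
  apply sum_congr rfl
  intro σ _
  rw [map_smul, LinearMap.smul_apply, col_of, Finsupp.smul_single, smul_eq_mul, mul_one,
    Finsupp.single_apply]

variable [DecidableEq Ω]

/-- matrix coefficients of the action of `K[Sym Δ]` on the colourings of `Δ` -/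
noncomputable def rho (K : Type*) [Field K] {Ω : Type*} [DecidableEq Ω] (Δ : Finset Ω) (n : ℕ) :
    MonoidAlgebra K (Perm Δ) →ₗ[K] ((Δ → Fin n) × (Δ → Fin n) → K) where
  toFun x := fun q => ∑ σ : Perm Δ, if q.1 ∘ (σ⁻¹ : Perm Δ) = q.2 then x.coeff σ else 0
  map_add' x y := by
    funext q
    rw [Pi.add_apply, ← sum_add_distrib]
    apply sum_congr rfl
    intro σ _
    rw [MonoidAlgebra.coeff_add, Finsupp.add_apply]
    split_ifs <;> simp
  map_smul' a x := by
    funext q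
    rw [RingHom.id_apply, Pi.smul_apply, smul_sum]
    apply sum_congr rfl
    intro σ _
    rw [MonoidAlgebra.coeff_smul, Finsupp.smul_apply]
    split_ifs <;> simp

theorem rho_ker {Δ : Finset Ω} {n : ℕ} {x : MonoidAlgebra K (Perm Δ)} (hx : rho K Δ n x = 0) :
    phi K Δ x ∈ Ann K Ω n := by
  classical
  rw [mem_Ann]
  apply Finsupp.lhom_ext
  intro C a
  rw [LinearMap.zero_apply]
  have h1 : phi K Δ x = ∑ σ : Perm Δ, x.coeff σ • MonoidAlgebra.of K (FSym Ω) (ext Δ σ) := by
    conv_lhs => rw [expand x (subset_univ _), map_sum]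
    apply sum_congr rfl
    intro σ _
    rw [map_smul, phi_o]
  rw [h1, map_sum, LinearMap.sum_apply]
  have h2 : ∀ σ : Perm Δ, (col K Ω n) (x.coeff σ • MonoidAlgebra.of K (FSym Ω) (ext Δ σ))
      (Finsupp.single C a) =
      Finsupp.single (C ∘ (((ext Δ σ)⁻¹ : FSym Ω) : Perm Ω)) (x.coeff σ * a) := by
    intro σ
    rw [map_smul, LinearMap.smul_apply, col_of, Finsupp.smul_single, smul_eq_mul]
  simp only [h2]
  apply Finsupp.ext
  intro B
  rw [Finsupp.finsetSum_apply, Finsupp.zero_apply]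
  simp only [Finsupp.single_apply]
  by_cases hex : ∃ σ₀ : Perm Δ, C ∘ (((ext Δ σ₀)⁻¹ : FSym Ω) : Perm Ω) = B
  · obtain ⟨σ₀, hσ₀⟩ := hex
    have hoff : ∀ z, z ∉ Δ → C z = B z := by
      intro z hz
      rw [← hσ₀, ← map_inv]
      simp only [Function.comp]
      rw [ext_notMem Δ _ hz]
    have h3 : ∀ σ : Perm Δ, (C ∘ (((ext Δ σ)⁻¹ : FSym Ω) : Perm Ω) = B) ↔
        ((fun z : Δ => C z) ∘ (σ⁻¹ : Perm Δ) = fun z : Δ => B z) := by
      intro σ
      rw [← map_inv]
      constructor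
      · intro h
        funext z
        have := congrFun h (z : Ω)
        simp only [Function.comp] at this ⊢
        rw [ext_mem Δ _ z.2] at this
        exact this
      · intro h
        funext z
        simp only [Function.comp]
        by_cases hz : z ∈ Δ
        · rw [ext_mem Δ _ hz]
          exact congrFun h ⟨z, hz⟩
        · rw [ext_notMem Δ _ hz, hoff z hz]
    have h4 := congrFun hx ((fun z : Δ => C z), (fun z : Δ => B z))
    change (∑ σ : Perm Δ, if (fun z : Δ => C z) ∘ (σ⁻¹ : Perm Δ) = (fun z : Δ => B z)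
      then x.coeff σ else 0) = 0 at h4
    calc ∑ σ : Perm Δ, (if C ∘ (((ext Δ σ)⁻¹ : FSym Ω) : Perm Ω) = B then x.coeff σ * a else 0)
        = (∑ σ : Perm Δ, if (fun z : Δ => C z) ∘ (σ⁻¹ : Perm Δ) = (fun z : Δ => B z)
            then x.coeff σ else 0) * a := by
          rw [sum_mul]
          apply sum_congr rfl
          intro σ _
          rw [if_congr (h3 σ) rfl rfl]
          split_ifs <;> simp
      _ = 0 := by rw [h4, zero_mul]
  · push Not at hex
    apply sum_eq_zero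
    intro σ _
    rw [if_neg (hex σ)]

/-- The intersection of an ideal `I` of `K[FSym Ω]` with `K[Sym Δ]`, as a subspace. -/
def restr {K : Type*} [Field K] {Ω : Type*} [DecidableEq Ω]
    (I : TwoSidedIdeal (MonoidAlgebra K (FSym Ω))) (Δ : Finset Ω) :
    Submodule K (MonoidAlgebra K (Perm Δ)) where
  carrier := {x | phi K Δ x ∈ I}
  add_mem' := by
    intro a b ha hb
    change phi K Δ (a + b) ∈ I
    rw [map_add]
    exact I.add_mem ha hb
  zero_mem' := by
    change phi K Δ 0 ∈ I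
    rw [map_zero]
    exact I.zero_mem
  smul_mem' := by
    intro r x hx
    change phi K Δ (r • x) ∈ I
    rw [map_smul]
    exact smul_mem_ideal r hx

/-- The codimension of a subspace. -/
noncomputable def codim {K : Type*} [Field K] {V : Type*} [AddCommGroup V] [Module K V]
    (S : Submodule K V) : ℕ := Module.finrank K (V ⧸ S)

/-- The codimension of `I ∩ K[Sym Δ]` in `K[Sym Δ]`. -/
noncomputable def codimIn {K : Type*} [Field K] {Ω : Type*} [DecidableEq Ω]
    (I : TwoSidedIdeal (MonoidAlgebra K (FSym Ω))) (Δ : Finset Ω) : ℕ := codim (restr I Δ)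

/-- **Growth.** -/
theorem growth {n : ℕ} {I : TwoSidedIdeal (MonoidAlgebra K (FSym Ω))} (h : Ann K Ω n ≤ I)
    (Δ : Finset Ω) :
    codimIn I Δ ≤ n ^ (2 * Δ.card) := by
  unfold codimIn codim
  have hfin : Module.Finite K (MonoidAlgebra K (Perm Δ)) := by
    infer_instance
  have h1 : LinearMap.ker (rho K Δ n) ≤ restr I Δ := by
    intro x hx
    change phi K Δ x ∈ I
    exact h (rho_ker (LinearMap.mem_ker.mp hx))
  have h2 := Submodule.finrank_quotient_add_finrank (restr I Δ)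
  have h3 := LinearMap.finrank_range_add_finrank_ker (rho K Δ n)
  have h4 := Submodule.finrank_mono h1
  have h5 : Module.finrank K (LinearMap.range (rho K Δ n)) ≤
      Module.finrank K ((Δ → Fin n) × (Δ → Fin n) → K) := Submodule.finrank_le _
  rw [Module.finrank_fintype_fun_eq_card, Fintype.card_prod, Fintype.card_fun, Fintype.card_fin,
    Fintype.card_coe, ← pow_add, ← two_mul] at h5
  omega

/-- **Primeness.** -/
theorem Ann_prime [Infinite Ω] {n : ℕ} {x y : MonoidAlgebra K (FSym Ω)} (hx : x ∉ Ann K Ω n)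
    (hy : y ∉ Ann K Ω n) : ∃ a, x * a * y ∉ Ann K Ω n := by
  classical
  obtain ⟨X, hX⟩ := exists_support x
  obtain ⟨Y, hY⟩ := exists_support y
  obtain ⟨D, hDX, hDc⟩ := (Set.Finite.infinite_compl X.finite_toSet).exists_subset_card_eq Y.card
  obtain ⟨g, hg⟩ := exists_move Y D hDc.ge
  have hgX : ∀ z ∈ Y, (g : Perm Ω) z ∉ X := fun z hz hz' =>
    hDX (by exact_mod_cast hg z hz) (by exact_mod_cast hz')
  refine ⟨MonoidAlgebra.of K _ g, ?_⟩
  intro hxy
  set y' := MonoidAlgebra.of K (FSym Ω) g * y * MonoidAlgebra.of K (FSym Ω) g⁻¹ with hy'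
  have hxy' : x * y' ∈ Ann K Ω n := by
    have : x * y' = x * MonoidAlgebra.of K _ g * y * MonoidAlgebra.of K _ g⁻¹ := by
      rw [hy']; simp only [mul_assoc]
    rw [this]
    exact (Ann K Ω n).mul_mem_right _ _ hxy
  have hy'n : y' ∉ Ann K Ω n := by
    intro h
    apply hy
    have : y = MonoidAlgebra.of K (FSym Ω) g⁻¹ * y' * MonoidAlgebra.of K (FSym Ω) g := by
      have h1 : MonoidAlgebra.of K (FSym Ω) g⁻¹ * MonoidAlgebra.of K (FSym Ω) g = 1 := by
        rw [← map_mul, inv_mul_cancel, map_one]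
      rw [hy']
      calc y = 1 * y * 1 := by rw [one_mul, mul_one]
        _ = (MonoidAlgebra.of K (FSym Ω) g⁻¹ * MonoidAlgebra.of K (FSym Ω) g) * y *
            (MonoidAlgebra.of K (FSym Ω) g⁻¹ * MonoidAlgebra.of K (FSym Ω) g) := by rw [h1]
        _ = _ := by simp only [mul_assoc]
    rw [this]
    exact (Ann K Ω n).mul_mem_right _ _ ((Ann K Ω n).mul_mem_left _ _ h)
  -- `y'` is supported off `X`
  have hY' : ∀ σ ∈ y'.coeff.support, ∀ z, z ∈ X → (σ : Perm Ω) z = z := by
    intro σ hσ z hz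
    have h1 : y' = ∑ τ ∈ y.coeff.support, y.coeff τ •
        MonoidAlgebra.of K (FSym Ω) (g * τ * g⁻¹) := by
      rw [hy']
      conv_lhs => rw [expand y (subset_refl _)]
      rw [mul_sum, sum_mul]
      apply sum_congr rfl
      intro τ _
      rw [mul_smul_comm, smul_mul_assoc, ← map_mul, ← map_mul]
    rw [Finsupp.mem_support_iff, h1, MonoidAlgebra.coeff_sum, Finsupp.finsetSum_apply] at hσ
    obtain ⟨τ, hτ, hτσ⟩ := exists_ne_zero_of_sum_ne_zero hσ
    rw [MonoidAlgebra.of_apply, MonoidAlgebra.coeff_smul, MonoidAlgebra.coeff_single,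
      Finsupp.smul_apply] at hτσ
    have h2 : σ = g * τ * g⁻¹ := by
      by_contra hcon
      apply hτσ
      rw [Finsupp.single_eq_of_ne hcon, smul_zero]
    rw [h2]
    change (g : Perm Ω) ((τ : Perm Ω) ((g : Perm Ω)⁻¹ z)) = z
    have h3 : (g : Perm Ω) ((g : Perm Ω)⁻¹ z) = z := (g : Perm Ω).apply_symm_apply z
    rw [hY τ hτ _ (fun h => hgX _ h (by rw [h3]; exact hz)), h3]
  -- matrix coefficients
  have hex : ∀ w : MonoidAlgebra K (FSym Ω), w ∉ Ann K Ω n → ∃ C B : Ω → Fin n,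
      (col K Ω n w (Finsupp.single C 1)) B ≠ 0 := by
    intro w hw
    by_contra hcon
    push Not at hcon
    apply hw
    rw [mem_Ann]
    apply Finsupp.lhom_ext'
    intro C
    apply LinearMap.ext_ring
    apply Finsupp.ext
    intro B
    exact hcon C B
  obtain ⟨C₁, B₁, h₁⟩ := hex x hx
  obtain ⟨C₂, B₂, h₂⟩ := hex y' hy'n
  rw [coeff_col x (subset_refl _)] at h₁
  rw [coeff_col y' (subset_refl _)] at h₂
  have inv_fix : ∀ (σ : FSym Ω) (z : Ω), (σ : Perm Ω) z = z → ((σ⁻¹ : FSym Ω) : Perm Ω) z = z := by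
    intro σ z h
    change (σ : Perm Ω)⁻¹ z = z
    rw [Perm.inv_eq_iff_eq, h]
  -- `σ⁻¹` preserves `X` for `σ` in the support of `x`
  have hσX : ∀ σ ∈ x.coeff.support, ∀ z ∈ X, ((σ⁻¹ : FSym Ω) : Perm Ω) z ∈ X := by
    intro σ hσ z hz
    by_contra hcon
    have h4 := hX σ hσ _ hcon
    have h5 : (σ : Perm Ω) (((σ⁻¹ : FSym Ω) : Perm Ω) z) = z := (σ : Perm Ω).apply_symm_apply z
    rw [h5] at h4
    rw [← h4] at hcon
    exact hcon hz
  have hτX : ∀ τ ∈ y'.coeff.support, ∀ z, z ∉ X → ((τ⁻¹ : FSym Ω) : Perm Ω) z ∉ X := by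
    intro τ hτ z hz hcon
    have h4 := hY' τ hτ _ hcon
    have h5 : (τ : Perm Ω) (((τ⁻¹ : FSym Ω) : Perm Ω) z) = z := (τ : Perm Ω).apply_symm_apply z
    rw [h5] at h4
    rw [← h4] at hcon
    exact hz hcon
  -- off `X`, `C₁ = B₁`; on `X`, `C₂ = B₂`
  have hoff : ∀ z, z ∉ X → C₁ z = B₁ z := by
    obtain ⟨σ, hσ, hσ'⟩ := exists_ne_zero_of_sum_ne_zero h₁
    intro z hz
    by_cases hc : C₁ ∘ ((σ⁻¹ : FSym Ω) : Perm Ω) = B₁
    · rw [← hc]
      simp only [Function.comp]
      rw [inv_fix σ z (hX σ hσ z hz)]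
    · rw [if_neg hc] at hσ'
      exact absurd rfl hσ'
  have hon : ∀ z, z ∈ X → C₂ z = B₂ z := by
    obtain ⟨τ, hτ, hτ'⟩ := exists_ne_zero_of_sum_ne_zero h₂
    intro z hz
    by_cases hc : C₂ ∘ ((τ⁻¹ : FSym Ω) : Perm Ω) = B₂
    · rw [← hc]
      simp only [Function.comp]
      rw [inv_fix τ z (hY' τ hτ z hz)]
    · rw [if_neg hc] at hτ'
      exact absurd rfl hτ'
  let C : Ω → Fin n := fun z => if z ∈ X then C₁ z else C₂ z
  let B : Ω → Fin n := fun z => if z ∈ X then B₁ z else B₂ z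
  have key : ∀ σ ∈ x.coeff.support, ∀ τ ∈ y'.coeff.support,
      ((C ∘ ((τ⁻¹ : FSym Ω) : Perm Ω)) ∘ ((σ⁻¹ : FSym Ω) : Perm Ω) = B) ↔
        (C₁ ∘ ((σ⁻¹ : FSym Ω) : Perm Ω) = B₁ ∧ C₂ ∘ ((τ⁻¹ : FSym Ω) : Perm Ω) = B₂) := by
    intro σ hσ τ hτ
    have hval : ∀ z, ((C ∘ ((τ⁻¹ : FSym Ω) : Perm Ω)) ∘ ((σ⁻¹ : FSym Ω) : Perm Ω)) z =
        if z ∈ X then C₁ (((σ⁻¹ : FSym Ω) : Perm Ω) z) else C₂ (((τ⁻¹ : FSym Ω) : Perm Ω) z) := by
      intro z
      simp only [Function.comp, C]
      by_cases hz : z ∈ X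
      · rw [inv_fix τ _ (hY' τ hτ _ (hσX σ hσ z hz)), if_pos hz, if_pos (hσX σ hσ z hz)]
      · rw [inv_fix σ z (hX σ hσ z hz), if_neg hz, if_neg (hτX τ hτ z hz)]
    constructor
    · intro h
      constructor
      · funext z
        by_cases hz : z ∈ X
        · have := congrFun h z
          rw [hval z, if_pos hz] at this
          simp only [B, if_pos hz] at this
          exact this
        · simp only [Function.comp]
          rw [inv_fix σ z (hX σ hσ z hz), hoff z hz]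
      · funext z
        by_cases hz : z ∈ X
        · simp only [Function.comp]
          rw [inv_fix τ z (hY' τ hτ z hz), hon z hz]
        · have := congrFun h z
          rw [hval z, if_neg hz] at this
          simp only [B, if_neg hz] at this
          exact this
    · rintro ⟨h1, h2⟩
      funext z
      rw [hval z]
      simp only [B]
      by_cases hz : z ∈ X
      · rw [if_pos hz, if_pos hz, ← h1]; rfl
      · rw [if_neg hz, if_neg hz, ← h2]; rfl
  -- the coefficient of the product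
  have hprod : (col K Ω n (x * y') (Finsupp.single C 1)) B =
      (∑ σ ∈ x.coeff.support, if C₁ ∘ ((σ⁻¹ : FSym Ω) : Perm Ω) = B₁ then x.coeff σ else 0) *
      (∑ τ ∈ y'.coeff.support, if C₂ ∘ ((τ⁻¹ : FSym Ω) : Perm Ω) = B₂ then y'.coeff τ else 0) := by
    have h1 : col K Ω n y' (Finsupp.single C 1) = ∑ τ ∈ y'.coeff.support, y'.coeff τ •
        Finsupp.single (C ∘ ((τ⁻¹ : FSym Ω) : Perm Ω)) (1 : K) := by
      conv_lhs => rw [expand y' (subset_refl _)]
      rw [map_sum, LinearMap.sum_apply]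
      apply sum_congr rfl
      intro τ _
      rw [map_smul, LinearMap.smul_apply, col_of]
    rw [map_mul, Module.End.mul_apply, h1, map_sum, Finsupp.finsetSum_apply, sum_mul_sum,
      sum_comm]
    apply sum_congr rfl
    intro τ hτ
    rw [map_smul, Finsupp.smul_apply, coeff_col x (subset_refl _), smul_eq_mul, mul_sum]
    apply sum_congr rfl
    intro σ hσ
    rw [if_congr (key σ hσ τ hτ) rfl rfl]
    by_cases ha : C₁ ∘ ((σ⁻¹ : FSym Ω) : Perm Ω) = B₁ <;>
      by_cases hb : C₂ ∘ ((τ⁻¹ : FSym Ω) : Perm Ω) = B₂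
    · rw [if_pos ⟨ha, hb⟩, if_pos ha, if_pos hb, mul_comm]
    · rw [if_neg (fun h => hb h.2), if_neg hb, mul_zero, mul_zero]
    · rw [if_neg (fun h => ha h.1), if_neg ha, mul_zero, zero_mul]
    · rw [if_neg (fun h => ha h.1), if_neg ha, mul_zero, zero_mul]
  have h0 : (col K Ω n (x * y') (Finsupp.single C 1)) B = 0 := by
    rw [mem_Ann.mp hxy']
    rfl
  rw [hprod] at h0
  exact (mul_ne_zero h₁ h₂) h0

end FinSym
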