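import Pool.Agent.Lib.MP_a8d7f7_al.Cols

/-!
# MP_a8d7f7_al: several columns (helper62)
-/

set_option autoImplicit false
set_option linter.unusedSectionVars false
set_option linter.unusedVariables false

namespace FinSym

open Finset Equiv

variable {K : Type*} [Field K] {α : Type*} [Fintype α] [DecidableEq α]

/-- the letters of a column -/
def F (c : α × Finset α) : Finset α := insert c.1 c.2

/-- product of the antisymmetrizers of the columns -/
noncomputable def Kap (K : Type*) [Field K] {α : Type*} [Fintype α] [DecidableEq α]
    (cols : List (α × Finset α)) : MonoidAlgebra K (Perm α) :=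
  (cols.map (fun c => k K (F c))).prod

noncomputable def PC (K : Type*) [Field K] {α : Type*} [DecidableEq α]
    (y : α → α) (c : α × Finset α) : MonoidAlgebra K (Perm α) :=
  P K y c.2.toList * (1 - o K (swap c.1 (y c.1)))

noncomputable def PD (K : Type*) [Field K] {α : Type*} [DecidableEq α]
    (y : α → α) (c : α × Finset α) : MonoidAlgebra K (Perm α) :=
  P K y c.2.toList

/-- the prolonged column -/
def next (y : α → α) (c : α × Finset α) : α × Finset α := (y c.1, insert c.1 c.2)

/-- all letters of the columns and their partners -/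
def sup (y : α → α) : List (α × Finset α) → Finset α
  | [] => ∅
  | c :: cols => F c ∪ (F c).image y ∪ sup y cols

theorem mem_sup {y : α → α} {cols : List (α × Finset α)} {z : α} :
    z ∈ sup y cols ↔ ∃ c ∈ cols, z ∈ F c ∨ ∃ b ∈ F c, y b = z := by
  induction cols with
  | nil => simp [sup]
  | cons c cols ih =>
    rw [sup, mem_union, mem_union, mem_image, ih]
    constructor
    · rintro ((h | h) | ⟨c', hc', h⟩)
      · exact ⟨c, List.mem_cons_self, Or.inl h⟩
      · exact ⟨c, List.mem_cons_self, Or.inr h⟩
      · exact ⟨c', List.mem_cons_of_mem _ hc', h⟩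
    · rintro ⟨c', hc', h⟩
      rw [List.mem_cons] at hc'
      rcases hc' with rfl | hc'
      · exact Or.inl h
      · exact Or.inr ⟨c', hc', h⟩

theorem PD_mem (y : α → α) (c : α × Finset α) : PD K y c ∈ AD K (F c ∪ (F c).image y) := by
  unfold PD
  apply P_mem_AD
  intro b hb
  rw [mem_toList] at hb
  have hb' : b ∈ F c := mem_insert_of_mem hb
  exact ⟨mem_union_left _ hb', mem_union_right _ (mem_image_of_mem _ hb')⟩

theorem PC_mem (y : α → α) (c : α × Finset α) : PC K y c ∈ AD K (F c ∪ (F c).image y) := by
  unfold PC
  refine Subalgebra.mul_mem _ (PD_mem y c) (Subalgebra.sub_mem _ (Subalgebra.one_mem _) ?_)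
  have h : c.1 ∈ F c := mem_insert_self _ _
  exact o_mem_AD (swap_mem_PS (mem_union_left _ h) (mem_union_right _ (mem_image_of_mem _ h)))

theorem kF_mem (y : α → α) (c : α × Finset α) : k K (F c) ∈ AD K (F c ∪ (F c).image y) :=
  AD_mono subset_union_left (k_mem_AD _)

theorem kNext_mem (y : α → α) (c : α × Finset α) :
    k K (F (next y c)) ∈ AD K (F c ∪ (F c).image y) := by
  refine AD_mono ?_ (k_mem_AD _)
  intro z hz
  unfold F next at hz
  simp only [mem_insert] at hz
  rcases hz with rfl | hz
  · exact mem_union_right _ (mem_image_of_mem _ (mem_insert_self _ _))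
  · exact mem_union_left _ (mem_insert.mpr hz)

theorem prod_mem (y : α → α) (f : α × Finset α → MonoidAlgebra K (Perm α))
    (hf : ∀ c, f c ∈ AD K (F c ∪ (F c).image y)) (cols : List (α × Finset α)) :
    (cols.map f).prod ∈ AD K (sup y cols) := by
  induction cols with
  | nil => exact Subalgebra.one_mem _
  | cons c cols ih =>
    rw [List.map_cons, List.prod_cons, sup]
    exact Subalgebra.mul_mem _ (AD_mono subset_union_left (hf c)) (AD_mono subset_union_right ih)

/-- the columns are pairwise disjoint and lie in `B` -/
structure Sys (B : Finset α) (cols : List (α × Finset α)) : Prop where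
  nodup : ∀ c ∈ cols, c.1 ∉ c.2
  sub : ∀ c ∈ cols, F c ⊆ B
  disj : cols.Pairwise (fun c c' => Disjoint (F c) (F c'))

theorem Sys.tail {B : Finset α} {c : α × Finset α} {cols : List (α × Finset α)}
    (h : Sys B (c :: cols)) : Sys B cols :=
  ⟨fun c' hc' => h.nodup c' (List.mem_cons_of_mem _ hc'),
    fun c' hc' => h.sub c' (List.mem_cons_of_mem _ hc'), (List.pairwise_cons.mp h.disj).2⟩

/-- several columns at once -/
theorem lemmaB {y : α → α} {B : Finset α} (hy : Partner y B) :
    ∀ (cols : List (α × Finset α)), Sys B cols → ∀ (v : MonoidAlgebra K (Perm α)),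
    (∀ b ∈ B, ∀ b' ∈ B, o K (swap (y b) (y b')) * v = v) →
    (cols.map (PC K y)).prod * Kap K cols * v =
      (cols.map (PD K y)).prod * Kap K (cols.map (next y)) * v := by
  intro cols
  induction cols with
  | nil => intro _ v _; rfl
  | cons c cols ih =>
    intro hs v hv
    have hcB : F c ⊆ B := hs.sub c List.mem_cons_self
    have hdis : Disjoint (F c ∪ (F c).image y) (sup y cols) := by
      rw [disjoint_left]
      intro z hz hz'
      obtain ⟨c', hc', h⟩ := mem_sup.mp hz'
      have hc'B : F c' ⊆ B := hs.sub c' (List.mem_cons_of_mem _ hc')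
      have hd := (List.pairwise_cons.mp hs.disj).1 c' hc'
      rw [mem_union, mem_image] at hz
      rcases hz with hz | ⟨b, hb, rfl⟩
      · rcases h with h | ⟨b', hb', rfl⟩
        · exact disjoint_left.mp hd hz h
        · exact hy.out b' (hc'B hb') (hcB hz)
      · rcases h with h | ⟨b', hb', h⟩
        · exact hy.out b (hcB hb) (hc'B h)
        · have := hy.inj b' (hc'B hb') b (hcB hb) h
          exact disjoint_left.mp hd hb (this ▸ hb')
    have h1 := prod_mem (K := K) y (PC K y) (PC_mem y) cols
    have h2 := prod_mem (K := K) y (fun c => k K (F c)) (kF_mem y) cols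
    have h3 := prod_mem (K := K) y (PD K y) (PD_mem y) cols
    set w := (cols.map (PC K y)).prod * Kap K cols * v with hw
    have hwv : ∀ b ∈ c.2, o K (swap (y c.1) (y b)) * w = w := by
      intro b hb
      have hb' : b ∈ F c := mem_insert_of_mem hb
      have hc1 : c.1 ∈ F c := mem_insert_self _ _
      have h4 : o K (swap (y c.1) (y b)) ∈ AD K (F c ∪ (F c).image y) :=
        o_mem_AD (swap_mem_PS (mem_union_right _ (mem_image_of_mem _ hc1))
          (mem_union_right _ (mem_image_of_mem _ hb')))
      have h5 := AD_commute hdis h4 (Subalgebra.mul_mem _ h1 h2)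
      rw [hw, ← mul_assoc]
      change o K (swap (y c.1) (y b)) * ((cols.map (PC K y)).prod * Kap K cols) * v = _
      have h6 : o K (swap (y c.1) (y b)) * ((cols.map (PC K y)).prod * Kap K cols) =
        ((cols.map (PC K y)).prod * Kap K cols) * o K (swap (y c.1) (y b)) := h5
      rw [h6, mul_assoc, hv _ (hcB hc1) _ (hcB hb')]
    have hA := lemmaA (K := K) (hs.nodup c List.mem_cons_self) (hy.mono hcB)
      (l := c.2.toList) (fun b => mem_toList) w hwv
    have hw' : w = (cols.map (PD K y)).prod * Kap K (cols.map (next y)) * v := ih hs.tail v hv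
    have hcomm1 : (cols.map (PC K y)).prod * k K (F c) = k K (F c) * (cols.map (PC K y)).prod :=
      (AD_commute hdis (kF_mem y c) h1).symm
    have hcomm2 : k K (F (next y c)) * (cols.map (PD K y)).prod =
        (cols.map (PD K y)).prod * k K (F (next y c)) :=
      AD_commute hdis (kNext_mem y c) h3
    calc ((c :: cols).map (PC K y)).prod * Kap K (c :: cols) * v
        = PC K y c * (cols.map (PC K y)).prod * (k K (F c) * Kap K cols) * v := by
          rw [List.map_cons, List.prod_cons]; rfl
      _ = PC K y c * ((cols.map (PC K y)).prod * k K (F c)) * Kap K cols * v := by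
          simp only [mul_assoc]
      _ = PC K y c * k K (F c) * w := by
          rw [hcomm1, hw]; simp only [mul_assoc]
      _ = PD K y c * k K (F (next y c)) * w := hA
      _ = PD K y c * (k K (F (next y c)) * (cols.map (PD K y)).prod) *
            Kap K (cols.map (next y)) * v := by
          rw [hw']; simp only [mul_assoc]
      _ = ((c :: cols).map (PD K y)).prod * Kap K ((c :: cols).map (next y)) * v := by
          rw [hcomm2, List.map_cons, List.prod_cons, List.map_cons]
          unfold Kap
          rw [List.map_cons, List.prod_cons]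
          simp only [mul_assoc]

end FinSym
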