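import Pool.Agent.Lib.MP_a8d7f7_al.Multi

/-!
# MP_a8d7f7_al: the stage theorem (helper62)
-/

set_option autoImplicit false
set_option linter.unusedSectionVars false
set_option linter.unusedVariables false

namespace FinSym

open Finset Equiv

variable {K : Type*} [Field K] {α : Type*} [Fintype α] [DecidableEq α]

/-- the union of the rows -/
def un : List (Finset α) → Finset α
  | [] => ∅
  | Y :: Ys => Y ∪ un Ys

theorem un_cons (Y : Finset α) (Ys : List (Finset α)) : un (Y :: Ys) = Y ∪ un Ys := rfl

theorem sub_un {Y : Finset α} {Ys : List (Finset α)} (h : Y ∈ Ys) : Y ⊆ un Ys := by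
  induction Ys with
  | nil => simp at h
  | cons Y' Ys ih =>
    rw [un_cons]
    rw [List.mem_cons] at h
    rcases h with rfl | h
    · exact subset_union_left
    · exact (ih h).trans subset_union_right

/-- the product of the symmetrizers of the rows -/
noncomputable def E (K : Type*) [Field K] {α : Type*} [Fintype α] [DecidableEq α]
    (Ys : List (Finset α)) : MonoidAlgebra K (Perm α) := (Ys.map (e K)).prod

theorem E_cons (Y : Finset α) (Ys : List (Finset α)) : E K (Y :: Ys) = e K Y * E K Ys := by
  unfold E; rw [List.map_cons, List.prod_cons]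

/-- `n` columns, each of which meets each row in exactly one letter -/
structure Valid (n : ℕ) (Ys : List (Finset α)) (cols : List (α × Finset α)) : Prop where
  len : cols.length = n
  sys : Sys (un Ys) cols
  one : ∀ c ∈ cols, ∀ Y ∈ Ys, (F c ∩ Y).card = 1

/-- the span of the elements `g · (column antisymmetrizers) · (row symmetrizers)` -/
noncomputable def Lsub (K : Type*) [Field K] {α : Type*} [Fintype α] [DecidableEq α] (n : ℕ)
    (Ys : List (Finset α)) : Submodule K (MonoidAlgebra K (Perm α)) :=
  Submodule.span K {x | ∃ g ∈ PS (un Ys), ∃ cols, Valid n Ys cols ∧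
    x = o K g * (Kap K cols * E K Ys)}

inductive Good (p n : ℕ) : List (Finset α) → Prop
  | base (Y : Finset α) (h : Y.card = n) : Good p n [Y]
  | step (Y : Finset α) (Ys : List (Finset α)) (N : ℕ) (h : Good p n Ys) (hd : Disjoint Y (un Ys))
      (hY : Y.card = p ^ N - 1) (hb : (un Ys).card < p ^ N) : Good p n (Y :: Ys)

theorem Lsub_stable {n : ℕ} {Ys : List (Finset α)} {a x : MonoidAlgebra K (Perm α)}
    (ha : a ∈ AD K (un Ys)) (hx : x ∈ Lsub K n Ys) : a * x ∈ Lsub K n Ys := by
  revert x
  unfold AD at ha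
  induction ha using Algebra.adjoin_induction with
  | mem a ha =>
    intro x hx
    obtain ⟨g, hg, rfl⟩ := ha
    unfold Lsub at hx ⊢
    induction hx using Submodule.span_induction with
    | mem x hx =>
      obtain ⟨g', hg', cols, hv, rfl⟩ := hx
      apply Submodule.subset_span
      exact ⟨g * g', (PS _).mul_mem hg hg', cols, hv, by rw [o_mul, mul_assoc]⟩
    | zero => rw [mul_zero]; exact Submodule.zero_mem _
    | add x y _ _ hx hy => rw [mul_add]; exact Submodule.add_mem _ hx hy
    | smul r x _ hx => rw [mul_smul_comm]; exact Submodule.smul_mem _ _ hx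
  | algebraMap r =>
    intro x hx
    rw [← Algebra.smul_def]
    exact Submodule.smul_mem _ _ hx
  | add a b _ _ ha hb =>
    intro x hx
    rw [add_mul]
    exact Submodule.add_mem _ (ha hx) (hb hx)
  | mul a b _ _ ha hb =>
    intro x hx
    rw [mul_assoc]
    exact ha (hb hx)

/-! ### The orbit sums -/

/-- the sum of the permutations of `Z` which carry `B` onto `S` -/
noncomputable def HS (K : Type*) [Field K] {α : Type*} [Fintype α] [DecidableEq α]
    (Z B S : Finset α) : MonoidAlgebra K (Perm α) :=
  ∑ σ ∈ univ.filter (fun σ : Perm α => σ ∈ PS Z ∧ B.image σ = S), o K σ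

theorem o_mul_HS {Z : Finset α} {τ : Perm α} (hτ : τ ∈ PS Z) (B S : Finset α) :
    o K τ * HS K Z B S = HS K Z B (S.image τ) := by
  unfold HS
  rw [mul_sum]
  refine sum_bij' (fun σ _ => τ * σ) (fun σ _ => τ⁻¹ * σ) ?_ ?_ ?_ ?_ ?_
  · intro σ hσ
    rw [mem_filter] at hσ ⊢
    refine ⟨mem_univ _, (PS Z).mul_mem hτ hσ.2.1, ?_⟩
    rw [← hσ.2.2, image_image]
    rfl
  · intro σ hσ
    rw [mem_filter] at hσ ⊢
    refine ⟨mem_univ _, (PS Z).mul_mem ((PS Z).inv_mem hτ) hσ.2.1, ?_⟩
    have h1 : (S.image τ).image (τ⁻¹ : Perm α) = S := by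
      rw [image_image]
      have : ((τ⁻¹ : Perm α) ∘ τ : α → α) = id := by
        funext x; simp
      rw [this, image_id]
    rw [← h1, ← hσ.2.2, image_image]
    rfl
  · intro σ _; simp
  · intro σ _; simp
  · intro σ _
    rw [← map_mul]

theorem sum_HS {Z B : Finset α} (hB : B ⊆ Z) :
    ∑ S ∈ powersetCard B.card Z, HS K Z B S = e K Z := by
  unfold HS e
  have h1 := sum_fiberwise_of_maps_to (s := univ.filter (· ∈ PS Z)) (t := powersetCard B.card Z)
    (g := fun σ : Perm α => B.image σ) (fun σ hσ => by
      rw [mem_filter] at hσ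
      rw [mem_powersetCard, card_image_of_injective _ σ.injective]
      refine ⟨?_, rfl⟩
      intro x hx
      obtain ⟨z, hz, rfl⟩ := mem_image.mp hx
      exact PS_maps hσ.2 (hB hz)) (fun σ => o K σ)
  rw [← h1]
  apply sum_congr rfl
  intro S _
  rw [filter_filter]

/-- the stabilizer -/
theorem HS_self {Y B : Finset α} (hd : Disjoint Y B) : HS K (Y ∪ B) B B = e K Y * e K B := by
  unfold HS e
  rw [sum_mul_sum, ← sum_product']
  symm
  refine sum_bij (fun q _ => q.1 * q.2) ?_ ?_ ?_ ?_
  · rintro ⟨σ, τ⟩ h
    rw [mem_product, mem_filter, mem_filter] at h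
    rw [mem_filter]
    refine ⟨mem_univ _, (PS _).mul_mem (PS_mono subset_union_left h.1.2)
      (PS_mono subset_union_right h.2.2), ?_⟩
    apply eq_of_subset_of_card_le
    · intro z hz
      obtain ⟨x, hx, rfl⟩ := mem_image.mp hz
      have h1 := PS_maps h.2.2 hx
      rw [Perm.mul_apply, h.1.2 _ (fun h' => disjoint_left.mp hd h' h1)]
      exact h1
    · rw [card_image_of_injective _ (Equiv.injective _)]
  · rintro ⟨σ, τ⟩ h ⟨σ', τ'⟩ h' he
    rw [mem_product, mem_filter, mem_filter] at h h'
    simp only at h h' he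
    have h1 : τ = τ' := by
      ext x
      by_cases hx : x ∈ B
      · have h2 := congrArg (fun ρ : Perm α => ρ x) he
        simp only [Perm.mul_apply] at h2
        rw [h.1.2 _ (fun h3 => disjoint_left.mp hd h3 (PS_maps h.2.2 hx)),
          h'.1.2 _ (fun h3 => disjoint_left.mp hd h3 (PS_maps h'.2.2 hx))] at h2
        exact h2
      · rw [h.2.2 x hx, h'.2.2 x hx]
    subst h1
    rw [mul_right_cancel he]
  · intro ρ hρ
    rw [mem_filter] at hρ
    obtain ⟨-, hρ, hρB⟩ := hρ
    have hB : ∀ x, ρ x ∈ B ↔ x ∈ B := by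
      intro x
      constructor
      · intro h
        rw [← hρB] at h
        obtain ⟨z, hz, hzx⟩ := mem_image.mp h
        rwa [← ρ.injective hzx]
      · intro h
        rw [← hρB]
        exact mem_image_of_mem _ h
    set τ : Perm α := (ρ.subtypePerm (p := fun x => x ∈ B) (fun x => (hB x))).ofSubtype with hτ
    have hτ1 : ∀ x, x ∈ B → τ x = ρ x := by
      intro x hx
      rw [hτ, Perm.ofSubtype_apply_of_mem _ hx, Perm.subtypePerm_apply]
    have hτ2 : ∀ x, x ∉ B → τ x = x := by
      intro x hx
      rw [hτ, Perm.ofSubtype_apply_of_not_mem _ hx]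
    refine ⟨(ρ * τ⁻¹, τ), ?_, by simp⟩
    rw [mem_product, mem_filter, mem_filter]
    refine ⟨⟨mem_univ _, ?_⟩, mem_univ _, hτ2⟩
    intro x hx
    change ρ (τ⁻¹ x) = x
    have hτm : τ ∈ PS B := hτ2
    have hτi := (PS B).inv_mem hτm
    by_cases hxB : x ∈ B
    · have h1 : τ⁻¹ x ∈ B := PS_maps hτi hxB
      rw [← hτ1 _ h1]
      exact τ.apply_symm_apply x
    · rw [hτi x hxB]
      apply hρ
      rw [mem_union, not_or]
      exact ⟨hx, hxB⟩
  · rintro ⟨σ, τ⟩ _
    exact (o_mul σ τ).symm

/-- the product of differences expands to the alternating sum -/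
theorem P_mul_HS {Z B S : Finset α} {y : α → α} (hS : S ⊆ Z) (hinj : Set.InjOn y S)
    (hout : ∀ x ∈ S, y x ∈ Z \ S) : ∀ l : List α, l.Nodup → (∀ b ∈ l, b ∈ S) →
    P K y l * HS K Z B S =
      ∑ T ∈ l.toFinset.powerset, (-1 : ℤ) ^ T.card • HS K Z B (swapSet S T y) := by
  intro l
  induction l with
  | nil =>
    intro _ _
    rw [P_nil, one_mul, List.toFinset_nil, powerset_empty, sum_singleton, card_empty, pow_zero,
      one_smul]
    simp [swapSet]
  | cons b l ih =>
    intro hn hl
    rw [List.nodup_cons] at hn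
    have hb : b ∈ S := hl b List.mem_cons_self
    have hbl : b ∉ l.toFinset := by rw [List.mem_toFinset]; exact hn.1
    rw [P_cons, mul_assoc, ih hn.2 (fun b' hb' => hl b' (List.mem_cons_of_mem _ hb')),
      List.toFinset_cons, sum_powerset_insert hbl, sub_mul, one_mul, sub_eq_add_neg, mul_sum,
      ← sum_neg_distrib]
    congr 1
    apply sum_congr rfl
    intro T hT
    rw [mem_powerset] at hT
    have hbT : b ∉ T := fun h => hbl (hT h)
    have hTS : ∀ x ∈ T, x ∈ S := fun x hx =>
      hl x (List.mem_cons_of_mem _ (List.mem_toFinset.mp (hT hx)))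
    have hyb := mem_sdiff.mp (hout b hb)
    rw [mul_smul_comm, o_mul_HS (swap_mem_PS (hS hb) hyb.1), card_insert_of_notMem hbT, pow_succ,
      mul_neg_one, neg_smul]
    congr 3
    -- the image
    have hbyb : b ≠ y b := fun h => hyb.2 (h ▸ hb)
    unfold swapSet
    rw [image_union, image_insert]
    have h1 : (T.image y).image (swap b (y b)) = T.image y := by
      rw [image_image]
      apply image_congr
      intro x hx
      simp only [Function.comp]
      have hxS := hTS x hx
      apply swap_apply_of_ne_of_ne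
      · intro h
        exact (mem_sdiff.mp (hout x hxS)).2 (h ▸ hb)
      · intro h
        have := hinj hxS hb h
        exact hbT (this ▸ hx)
    have h2 : (S \ T).image (swap b (y b)) = insert (y b) (S \ insert b T) := by
      have h3 : S \ T = insert b (S \ insert b T) := by
        ext x
        simp only [mem_sdiff, mem_insert, not_or]
        constructor
        · rintro ⟨h1, h2⟩
          by_cases hxb : x = b
          · exact Or.inl hxb
          · exact Or.inr ⟨h1, hxb, h2⟩
        · rintro (rfl | ⟨h1, h2, h3⟩)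
          · exact ⟨hb, hbT⟩
          · exact ⟨h1, h3⟩
      rw [h3, image_insert, swap_apply_left]
      congr 1
      conv_rhs => rw [← image_id (s := S \ insert b T)]
      apply image_congr
      intro x hx
      rw [mem_coe, mem_sdiff, mem_insert, not_or] at hx
      apply swap_apply_of_ne_of_ne hx.2.1
      intro h
      exact hyb.2 (h ▸ hx.1)
    rw [h1, h2, insert_union, union_insert]

end FinSym
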