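import Pool.Agent.Lib.MP_a8d7f7_al.Stage

/-!
# MP_a8d7f7_al: the stage theorem, the induction step (helper62)
-/

set_option autoImplicit false
set_option linter.unusedSectionVars false
set_option linter.unusedVariables false

namespace FinSym

open Finset Equiv

variable {K : Type*} [Field K] {α : Type*} [Fintype α] [DecidableEq α]

/-- conjugating a product of differences -/
theorem P_conj (y : α → α) (γ : Perm α) (l : List α) :
    P K y l * o K γ = o K γ * P K (fun x => γ⁻¹ (y (γ x))) (l.map (γ⁻¹ : Perm α)) := by
  induction l with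
  | nil => rw [List.map_nil, P_nil, P_nil, one_mul, mul_one]
  | cons b l ih =>
    rw [List.map_cons, P_cons, P_cons, mul_assoc, ih, ← mul_assoc, ← mul_assoc]
    congr 1
    rw [sub_mul, one_mul, mul_sub, mul_one, ← o_mul, ← o_mul, swap_mul_eq_mul_swap]
    have : γ (γ⁻¹ b) = b := γ.apply_symm_apply b
    simp only [this]

/-- the letters of the columns, in the order used -/
noncomputable def lets (cols : List (α × Finset α)) : List α :=
  cols.flatMap (fun c => c.2.toList ++ [c.1])

theorem mem_lets {cols : List (α × Finset α)} {z : α} : z ∈ lets cols ↔ ∃ c ∈ cols, z ∈ F c := by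
  unfold lets F
  rw [List.mem_flatMap]
  simp only [List.mem_append, mem_toList, List.mem_singleton, mem_insert]
  constructor
  · rintro ⟨c, hc, h⟩; exact ⟨c, hc, h.symm⟩
  · rintro ⟨c, hc, h⟩; exact ⟨c, hc, h.symm⟩

theorem P_lets (y : α → α) (cols : List (α × Finset α)) :
    P K y (lets cols) = (cols.map (PC K y)).prod := by
  induction cols with
  | nil => rfl
  | cons c cols ih =>
    rw [List.map_cons, List.prod_cons, ← ih]
    unfold lets
    rw [List.flatMap_cons, P_append, P_append, P_cons, P_nil, mul_one]
    rfl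

theorem nodup_lets {B : Finset α} {cols : List (α × Finset α)} (h : Sys B cols) :
    (lets cols).Nodup := by
  unfold lets
  rw [List.nodup_flatMap]
  constructor
  · intro c hc
    rw [List.nodup_append]
    refine ⟨nodup_toList _, List.nodup_singleton _, ?_⟩
    intro a ha b hb he
    rw [mem_toList] at ha
    rw [List.mem_singleton] at hb
    have h1 : c.1 ∈ c.2 := by rw [← hb, ← he]; exact ha
    exact h.nodup c hc h1
  · refine h.disj.imp ?_
    intro c c' hd
    rw [Function.onFun, List.disjoint_left]
    intro z hz hz'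
    have h1 : ∀ c : α × Finset α, z ∈ c.2.toList ++ [c.1] → z ∈ F c := by
      intro c hz
      rw [List.mem_append, mem_toList, List.mem_singleton] at hz
      unfold F
      rw [mem_insert]
      exact hz.symm
    exact disjoint_left.mp hd (h1 c hz) (h1 c' hz')

theorem P_split {y : α → α} {B : Finset α} (hy : Partner y B) {l : List α} (hn : l.Nodup)
    (hl : ∀ b, b ∈ l ↔ b ∈ B) {cols : List (α × Finset α)} (h : Sys B cols) :
    P K y l = P K y (B \ (lets cols).toFinset).toList * (cols.map (PC K y)).prod := by
  rw [← P_lets, ← P_append]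
  apply P_perm hy (fun b hb => (hl b).mp hb)
  have hL : ∀ z ∈ lets cols, z ∈ B := by
    intro z hz
    obtain ⟨c, hc, hz⟩ := mem_lets.mp hz
    exact h.sub c hc hz
  rw [List.perm_ext_iff_of_nodup hn]
  · intro z
    rw [hl, List.mem_append, mem_toList, mem_sdiff, List.mem_toFinset]
    constructor
    · intro hz
      by_cases hz' : z ∈ lets cols
      · exact Or.inr hz'
      · exact Or.inl ⟨hz, hz'⟩
    · rintro (h | h)
      · exact h.1
      · exact hL z h
  · rw [List.nodup_append]
    refine ⟨nodup_toList _, nodup_lets h, ?_⟩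
    intro a ha b hb he
    rw [mem_toList, mem_sdiff, List.mem_toFinset] at ha
    exact ha.2 (he ▸ hb)

theorem Valid.next {n : ℕ} {Ys : List (Finset α)} {cols : List (α × Finset α)}
    (h : Valid n Ys cols) {Y : Finset α} (hd : Disjoint Y (un Ys)) {y : α → α}
    (hy : ∀ b ∈ un Ys, y b ∈ Y) (hinj : ∀ b ∈ un Ys, ∀ b' ∈ un Ys, y b = y b' → b = b') :
    Valid n (Y :: Ys) (cols.map (next y)) := by
  have hF : ∀ c : α × Finset α, F (FinSym.next y c) = insert (y c.1) (F c) := fun c => rfl
  have hc1 : ∀ c ∈ cols, c.1 ∈ un Ys := fun c hc => h.sys.sub c hc (mem_insert_self _ _)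
  have hyc : ∀ c ∈ cols, y c.1 ∉ un Ys := fun c hc h' =>
    disjoint_left.mp hd (hy _ (hc1 c hc)) h'
  refine ⟨by rw [List.length_map, h.len], ⟨?_, ?_, ?_⟩, ?_⟩
  · intro c' hc'
    obtain ⟨c, hc, rfl⟩ := List.mem_map.mp hc'
    intro h'
    exact hyc c hc (h.sys.sub c hc h')
  · intro c' hc'
    obtain ⟨c, hc, rfl⟩ := List.mem_map.mp hc'
    rw [hF, un_cons]
    apply insert_subset
    · exact mem_union_left _ (hy _ (hc1 c hc))
    · exact (h.sys.sub c hc).trans subset_union_right
  · rw [List.pairwise_map]
    have h1 := h.sys.disj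
    rw [List.pairwise_iff_forall_sublist] at h1 ⊢
    intro c c' hs
    have hcc : c ∈ cols := hs.subset (by simp)
    have hcc' : c' ∈ cols := hs.subset (by simp)
    have h2 := h1 hs
    rw [hF, hF, disjoint_insert_left, disjoint_insert_right, mem_insert, not_or]
    refine ⟨⟨fun he => ?_, fun h' => hyc c hcc (h.sys.sub c' hcc' h')⟩,
      fun h' => hyc c' hcc' (h.sys.sub c hcc h'), h2⟩
    have h3 := hinj _ (hc1 c hcc) _ (hc1 c' hcc') he
    exact disjoint_left.mp h2 (mem_insert_self _ _) (by rw [h3]; exact mem_insert_self _ _)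
  · intro c' hc' Y' hY'
    obtain ⟨c, hc, rfl⟩ := List.mem_map.mp hc'
    rw [hF]
    rw [List.mem_cons] at hY'
    rcases hY' with rfl | hY'
    · rw [insert_inter_of_mem (hy _ (hc1 c hc))]
      have : F c ∩ Y' = ∅ := by
        rw [← disjoint_iff_inter_eq_empty]
        exact (hd.mono_right (h.sys.sub c hc)).symm
      rw [this]
      rfl
    · rw [insert_inter_of_notMem, h.one c hc Y' hY']
      intro h'
      exact hyc c hc (sub_un hY' h')

/-- the key computation of the step -/
theorem key_mem {n : ℕ} {Ys : List (Finset α)} {cols : List (α × Finset α)}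
    (hv : Valid n Ys cols) {Y : Finset α} (hd : Disjoint Y (un Ys)) {B' : Finset α} {y : α → α}
    {γ : Perm α} (hγ : γ ∈ PS (Y ∪ un Ys)) (hB' : ∀ x, γ x ∈ B' ↔ x ∈ un Ys)
    (hinj : Set.InjOn y B') (hout : ∀ x ∈ B', y x ∈ (Y ∪ un Ys) \ B') {l : List α} (hn : l.Nodup)
    (hl : ∀ b, b ∈ l ↔ b ∈ B') :
    P K y l * (o K γ * (Kap K cols * E K (Y :: Ys))) ∈ Lsub K n (Y :: Ys) := by
  set y' : α → α := fun x => γ⁻¹ (y (γ x)) with hy'
  set l' : List α := l.map (γ⁻¹ : Perm α) with hl'
  have hl'n : l'.Nodup := hn.map (Equiv.injective _)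
  have hγi : ∀ x, γ (γ⁻¹ x) = x := fun x => γ.apply_symm_apply x
  have hiγ : ∀ x, γ⁻¹ (γ x) = x := fun x => γ.symm_apply_apply x
  have hl'm : ∀ b, b ∈ l' ↔ b ∈ un Ys := by
    intro b
    rw [hl', List.mem_map, ← hB' b, ← hl]
    constructor
    · rintro ⟨a, ha, rfl⟩
      rw [hγi]; exact ha
    · intro h; exact ⟨_, h, hiγ b⟩
  have hy'Y : ∀ b ∈ un Ys, y' b ∈ Y := by
    intro b hb
    have h1 := mem_sdiff.mp (hout _ ((hB' b).mpr hb))
    have h2 : γ⁻¹ (y (γ b)) ∈ Y ∪ un Ys := PS_maps ((PS _).inv_mem hγ) h1.1
    rw [mem_union] at h2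
    rcases h2 with h2 | h2
    · exact h2
    · exfalso
      have h3 := (hB' _).mpr h2
      rw [hγi] at h3
      exact h1.2 h3
  have hy'inj : ∀ b ∈ un Ys, ∀ b' ∈ un Ys, y' b = y' b' → b = b' := by
    intro b hb b' hb' he
    have h1 : y (γ b) = y (γ b') := (γ⁻¹ : Perm α).injective he
    exact γ.injective (hinj ((hB' b).mpr hb) ((hB' b').mpr hb') h1)
  have hP : Partner y' (un Ys) :=
    ⟨hy'inj, fun b hb h => disjoint_left.mp hd (hy'Y b hb) h⟩
  have hfix : ∀ b ∈ un Ys, ∀ b' ∈ un Ys,
      o K (swap (y' b) (y' b')) * E K (Y :: Ys) = E K (Y :: Ys) := by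
    intro b hb b' hb'
    rw [E_cons, ← mul_assoc, o_mul_e (swap_mem_PS (hy'Y b hb) (hy'Y b' hb'))]
  have hZ : un (Y :: Ys) = Y ∪ un Ys := rfl
  have hB := lemmaB hP cols hv.sys (E K (Y :: Ys)) hfix
  set w := P K y' (un Ys \ (lets cols).toFinset).toList with hw
  have h1 : P K y l * (o K γ * (Kap K cols * E K (Y :: Ys))) =
      (o K γ * w * (cols.map (PD K y')).prod) *
        (Kap K (cols.map (next y')) * E K (Y :: Ys)) := by
    rw [← mul_assoc (P K y l), P_conj, P_split hP hl'n hl'm hv.sys, ← hw]
    have : ∀ a b c d f : MonoidAlgebra K (Perm α), a * (b * c) * (d * f) = a * b * (c * d * f) := by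
      intro a b c d f; simp only [mul_assoc]
    rw [this, hB]
    simp only [mul_assoc]
  rw [h1]
  apply Lsub_stable
  · rw [hZ]
    refine Subalgebra.mul_mem _ (Subalgebra.mul_mem _ (o_mem_AD hγ) ?_) ?_
    · rw [hw]
      apply P_mem_AD
      intro b hb
      rw [mem_toList, mem_sdiff] at hb
      exact ⟨mem_union_right _ hb.1, mem_union_left _ (hy'Y b hb.1)⟩
    · refine AD_mono ?_ (prod_mem (K := K) y' (PD K y') (PD_mem y') cols)
      intro z hz
      obtain ⟨c, hc, h⟩ := mem_sup.mp hz
      rcases h with h | ⟨b, hb, rfl⟩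
      · exact mem_union_right _ (hv.sys.sub c hc h)
      · exact mem_union_left _ (hy'Y b (hv.sys.sub c hc hb))
  · apply Submodule.subset_span
    exact ⟨1, (PS _).one_mem, _, hv.next hd hy'Y hy'inj, by rw [o_one, one_mul]⟩

theorem Good.e_mem {p : ℕ} (hp : p.Prime) [CharP K p] {n : ℕ} {Ys : List (Finset α)}
    (h : Good p n Ys) : e K (un Ys) ∈ Lsub K n Ys := by
  induction h with
  | base Y h =>
    have hu : un [Y] = Y := by rw [un_cons]; exact union_empty _
    have hE : E K [Y] = e K Y := by unfold E; simp
    apply Submodule.subset_span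
    refine ⟨1, (PS _).one_mem, Y.toList.map (fun x => (x, ∅)), ⟨?_, ⟨?_, ?_, ?_⟩, ?_⟩, ?_⟩
    · rw [List.length_map, length_toList, h]
    · intro c hc
      obtain ⟨x, -, rfl⟩ := List.mem_map.mp hc
      exact notMem_empty _
    · intro c hc
      obtain ⟨x, hx, rfl⟩ := List.mem_map.mp hc
      rw [mem_toList] at hx
      rw [hu]
      exact insert_subset hx (empty_subset _)
    · rw [List.pairwise_map]
      refine (nodup_toList Y).imp ?_
      intro a b hab
      unfold F
      rw [disjoint_left]
      intro z hz hz'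
      simp only [insert_empty_eq, mem_singleton] at hz hz'
      exact hab (hz.symm.trans hz')
    · intro c hc Y' hY'
      obtain ⟨x, hx, rfl⟩ := List.mem_map.mp hc
      rw [mem_toList] at hx
      rw [List.mem_singleton] at hY'
      subst hY'
      unfold F
      simp only [insert_empty_eq]
      rw [singleton_inter_of_mem hx, card_singleton]
    · rw [o_one, one_mul, hu, hE]
      have : Kap K (Y.toList.map (fun x => (x, (∅ : Finset α)))) = 1 := by
        unfold Kap
        rw [List.map_map]
        apply List.prod_eq_one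
        intro a ha
        obtain ⟨x, -, rfl⟩ := List.mem_map.mp ha
        simp only [Function.comp]
        unfold F
        simp only [insert_empty_eq]
        exact k_singleton x
      rw [this, one_mul]
  | step Y Ys N hG hd hY hb ih =>
    set L' := Lsub K n (Y :: Ys) with hL'
    set Z := Y ∪ un Ys with hZ
    have hZc : Z.card = p ^ N - 1 + (un Ys).card := by
      rw [hZ, card_union_of_disjoint hd, hY]
    have hQ : ∀ q : (MonoidAlgebra K (Perm α)) ⧸ L', p • q = 0 := by
      intro q
      obtain ⟨x, rfl⟩ := Submodule.mkQ_surjective _ q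
      rw [← map_nsmul, ← Nat.cast_smul_eq_nsmul K, CharP.cast_eq_zero, zero_smul, map_zero]
    have hsum := sum_HS (K := K) (Z := Z) (B := un Ys) subset_union_right
    have hk : Killed Z (un Ys).card (fun S => L'.mkQ (HS K Z (un Ys) S)) := by
      intro B' hB' hc y hinj hout
      have h1 : altSum (fun S => L'.mkQ (HS K Z (un Ys) S)) B' y =
          L'.mkQ (P K y B'.toList * HS K Z (un Ys) B') := by
        rw [P_mul_HS hB' hinj hout _ (nodup_toList _) (fun b hb => mem_toList.mp hb),
          toList_toFinset, map_sum]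
        unfold altSum
        apply sum_congr rfl
        intro T _
        rw [map_zsmul]
      rw [h1]
      by_cases hex : ∃ g ∈ PS Z, (un Ys).image (g : Perm α) = B'
      · obtain ⟨g, hg, hgB⟩ := hex
        have h2 : HS K Z (un Ys) B' = o K g * (e K Y * e K (un Ys)) := by
          rw [← hgB, ← o_mul_HS hg, hZ, HS_self hd]
        rw [h2]
        change L'.mkQ _ = 0
        rw [Submodule.mkQ_apply, Submodule.Quotient.mk_eq_zero]
        -- expand the last factor
        unfold Lsub at ih
        generalize e K (un Ys) = x at ih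
        induction ih using Submodule.span_induction with
        | mem x hx =>
          obtain ⟨g₁, hg₁, cols, hv, rfl⟩ := hx
          have h3 : e K Y * (o K g₁ * (Kap K cols * E K Ys)) =
              o K g₁ * (Kap K cols * E K (Y :: Ys)) := by
            have h4 : e K Y * (o K g₁ * Kap K cols) = (o K g₁ * Kap K cols) * e K Y := by
              apply AD_commute hd (e_mem_AD _)
              refine Subalgebra.mul_mem _ (o_mem_AD hg₁) ?_
              unfold Kap
              refine AD_mono ?_ (prod_mem (K := K) id (fun c => k K (F c))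
                (kF_mem id) cols)
              intro z hz
              obtain ⟨c, hc, h⟩ := mem_sup.mp hz
              rcases h with h | ⟨b, hb, rfl⟩
              · exact hv.sys.sub c hc h
              · exact hv.sys.sub c hc hb
            rw [← mul_assoc (o K g₁), ← mul_assoc (e K Y), h4, E_cons]
            simp only [mul_assoc]
          rw [h3, ← mul_assoc (o K g), ← o_mul]
          have hg₁Z : g₁ ∈ PS Z := PS_mono subset_union_right hg₁
          refine key_mem hv hd ((PS _).mul_mem hg hg₁Z) ?_ hinj hout (nodup_toList _)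
            (fun b => mem_toList)
          intro x
          rw [Perm.mul_apply, ← hgB]
          constructor
          · intro h
            obtain ⟨z, hz, hzx⟩ := mem_image.mp h
            have h5 := g.injective hzx
            have h6 : g₁⁻¹ z = x := by rw [h5]; exact g₁.symm_apply_apply x
            rw [← h6]
            exact PS_maps ((PS _).inv_mem hg₁) hz
          · intro h
            exact mem_image_of_mem _ (PS_maps hg₁ h)
        | zero => simp only [mul_zero]; exact Submodule.zero_mem _
        | add x y _ _ hx hy => simp only [mul_add]; exact Submodule.add_mem _ hx hy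
        | smul r x _ hx => simp only [mul_smul_comm]; exact Submodule.smul_mem _ _ hx
      · have h2 : HS K Z (un Ys) B' = 0 := by
          unfold HS
          apply sum_eq_zero
          intro σ hσ
          rw [mem_filter] at hσ
          exact absurd ⟨σ, hσ.2.1, hσ.2.2⟩ hex
        rw [h2, mul_zero, map_zero]
    have h0 := sum_killed hp hQ hb Z hZc _ hk
    rw [← map_sum, hsum, Submodule.mkQ_apply, Submodule.Quotient.mk_eq_zero] at h0
    exact h0

end FinSym
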