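import Mathlib

/-!
# MP_a8d7f7_al: functions on `b`-subsets killed by `b`-fold differences (helper62)
-/

set_option autoImplicit false

namespace FinSym

open Finset

variable {α Q : Type*} [DecidableEq α] [AddCommGroup Q]

/-- the set obtained from `B` by replacing `x ∈ T` by `y x` -/
def swapSet (B T : Finset α) (y : α → α) : Finset α := (B \ T) ∪ T.image y

/-- the alternating sum of `h` over the cube given by the pairs `x, y x`, `x ∈ B` -/
def altSum (h : Finset α → Q) (B : Finset α) (y : α → α) : Q :=
  ∑ T ∈ B.powerset, (-1 : ℤ) ^ T.card • h (swapSet B T y)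

/-- all `b`-fold differences of `h` inside `Z` vanish. -/
def Killed (Z : Finset α) (b : ℕ) (h : Finset α → Q) : Prop :=
  ∀ B ⊆ Z, B.card = b → ∀ y : α → α, Set.InjOn y B → (∀ x ∈ B, y x ∈ Z \ B) → altSum h B y = 0

theorem card_swapSet {B T : Finset α} {y : α → α} (hT : T ⊆ B) (hy : Set.InjOn y B)
    (hB : ∀ x ∈ B, y x ∉ B) : (swapSet B T y).card = B.card := by
  unfold swapSet
  rw [card_union_of_disjoint, card_image_of_injOn (hy.mono (by exact_mod_cast hT)),
    card_sdiff_of_subset hT]
  · have := card_le_card hT
    omega
  · rw [disjoint_left]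
    intro z hz hz'
    obtain ⟨x, hx, rfl⟩ := mem_image.mp hz'
    exact hB x (hT hx) (mem_sdiff.mp hz).1

theorem altSum_sub (h g : Finset α → Q) (B : Finset α) (y : α → α) :
    altSum (fun S => h S - g S) B y = altSum h B y - altSum g B y := by
  unfold altSum
  rw [← sum_sub_distrib]
  apply sum_congr rfl
  intro T _
  rw [smul_sub]

/-- functions of degree `< #B` are killed -/
theorem altSum_ssubsets (c : Finset α → Q) (B : Finset α) (y : α → α) (hy : Set.InjOn y B)
    (hB : ∀ x ∈ B, y x ∉ B) : altSum (fun S => ∑ U ∈ S.ssubsets, c U) B y = 0 := by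
  classical
  unfold altSum
  -- rewrite as a double sum
  set V : Finset (Finset α) := (B ∪ B.image y).powerset with hV
  have h1 : ∀ T ∈ B.powerset, (-1 : ℤ) ^ T.card • ∑ U ∈ (swapSet B T y).ssubsets, c U =
      ∑ U ∈ V, if U ⊂ swapSet B T y then (-1 : ℤ) ^ T.card • c U else 0 := by
    intro T hT
    rw [mem_powerset] at hT
    rw [smul_sum, ← sum_filter]
    apply sum_congr
    · ext U
      rw [mem_ssubsets, mem_filter, hV, mem_powerset]
      constructor
      · intro h
        refine ⟨h.subset.trans ?_, h⟩
        unfold swapSet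
        exact union_subset_union sdiff_subset (image_subset_image hT)
      · exact fun h => h.2
    · intro _ _; rfl
  rw [sum_congr rfl h1, sum_comm]
  apply sum_eq_zero
  intro U _
  by_cases hU : U.card < B.card
  · -- find a free pair
    obtain ⟨x, hxB, hxU, hyU⟩ : ∃ x ∈ B, x ∉ U ∧ y x ∉ U := by
      by_contra hcon
      push Not at hcon
      have : B.card ≤ U.card := by
        refine card_le_card_of_injOn (fun x => if x ∈ U then x else y x) ?_ ?_
        · intro x hx
          by_cases h : x ∈ U
          · simp only [h, if_true]; exact h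
          · simp only [h, if_false]; exact hcon x hx h
        · intro x hx x' hx' he
          simp only at he
          by_cases h : x ∈ U <;> by_cases h' : x' ∈ U
          · simpa [h, h'] using he
          · rw [if_pos h, if_neg h'] at he
            exact absurd (he ▸ hx) (hB x' hx')
          · rw [if_neg h, if_pos h'] at he
            exact absurd (he ▸ hx') (hB x hx)
          · rw [if_neg h, if_neg h'] at he
            exact hy hx hx' he
      omega
    -- involution
    have hsub : ∀ T ⊆ B, x ∉ T → (U ⊆ swapSet B (insert x T) y ↔ U ⊆ swapSet B T y) := by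
      intro T hT hxT
      unfold swapSet
      constructor
      · intro h u hu
        have := h hu
        rw [mem_union, mem_sdiff, mem_image] at this ⊢
        rcases this with ⟨h1, h2⟩ | ⟨v, hv, rfl⟩
        · left
          exact ⟨h1, fun h3 => h2 (mem_insert_of_mem h3)⟩
        · rw [mem_insert] at hv
          rcases hv with rfl | hv
          · exact absurd hu hyU
          · right; exact ⟨v, hv, rfl⟩
      · intro h u hu
        have := h hu
        rw [mem_union, mem_sdiff, mem_image] at this ⊢
        rcases this with ⟨h1, h2⟩ | ⟨v, hv, rfl⟩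
        · left
          refine ⟨h1, fun h3 => ?_⟩
          rw [mem_insert] at h3
          rcases h3 with rfl | h3
          · exact hxU hu
          · exact h2 h3
        · right; exact ⟨v, mem_insert_of_mem hv, rfl⟩
    have hss : ∀ T ⊆ B, (U ⊂ swapSet B T y ↔ U ⊆ swapSet B T y) := by
      intro T hT
      constructor
      · exact fun h => h.subset
      · intro h
        refine (Finset.ssubset_iff_subset_ne).mpr ⟨h, fun he => ?_⟩
        rw [he, card_swapSet hT hy hB] at hU
        exact lt_irrefl _ hU
    have hBins : B = insert x (B.erase x) := (insert_erase hxB).symm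
    rw [hBins, sum_powerset_insert (notMem_erase x B), ← hBins, ← sum_add_distrib]
    apply sum_eq_zero
    intro T hT
    rw [mem_powerset] at hT
    have hTB : T ⊆ B := hT.trans (erase_subset _ _)
    have hxT : x ∉ T := fun h => notMem_erase x B (hT h)
    have hiB : insert x T ⊆ B := insert_subset hxB hTB
    rw [if_congr (hss _ hTB) rfl rfl, if_congr (hss _ hiB) rfl rfl,
      if_congr (hsub T hTB hxT) rfl rfl]
    by_cases h : U ⊆ swapSet B T y
    · rw [if_pos h, if_pos h, card_insert_of_notMem hxT, pow_succ]
      rw [mul_neg_one, neg_smul, add_neg_cancel]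
    · rw [if_neg h, if_neg h, add_zero]
  · apply sum_eq_zero
    intro T hT
    rw [mem_powerset] at hT
    rw [if_neg]
    intro h
    have := card_lt_card h
    rw [card_swapSet hT hy hB] at this
    exact hU this

/-- if there is no room, every function is a sum over proper subsets -/
theorem small_room (Z : Finset α) (a b : ℕ) (hab : a < b) (hZ : Z.card = a + b)
    (h : Finset α → Q) : ∃ c : Finset α → Q, ∀ S ⊆ Z, S.card = b →
      h S = ∑ T ∈ S.ssubsets, c T := by
  classical
  refine ⟨fun T => (-1 : ℤ) ^ T.card • ∑ C ∈ (powersetCard a Z).filter (fun C => T ⊆ C), h (Z \ C),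
    ?_⟩
  intro S hS hSb
  have hempty : ∑ C ∈ (powersetCard a Z).filter (fun C => S ⊆ C), h (Z \ C) = 0 := by
    apply sum_eq_zero
    intro C hC
    rw [mem_filter, mem_powersetCard] at hC
    have := card_le_card hC.2
    omega
  have h1 : ∑ T ∈ S.ssubsets, ((-1 : ℤ) ^ T.card •
      ∑ C ∈ (powersetCard a Z).filter (fun C => T ⊆ C), h (Z \ C)) =
      ∑ T ∈ S.powerset, ((-1 : ℤ) ^ T.card •
      ∑ C ∈ (powersetCard a Z).filter (fun C => T ⊆ C), h (Z \ C)) := by
    rw [ssubsets, ← add_sum_erase S.powerset _ (mem_powerset_self S), hempty, smul_zero, zero_add]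
  rw [h1]
  have h2 : ∀ T ∈ S.powerset, ((-1 : ℤ) ^ T.card •
      ∑ C ∈ (powersetCard a Z).filter (fun C => T ⊆ C), h (Z \ C)) =
      ∑ C ∈ powersetCard a Z, if T ⊆ C then (-1 : ℤ) ^ T.card • h (Z \ C) else 0 := by
    intro T _
    rw [smul_sum, sum_filter]
  rw [sum_congr rfl h2, sum_comm]
  have h3 : ∀ C ∈ powersetCard a Z, (∑ T ∈ S.powerset,
      if T ⊆ C then (-1 : ℤ) ^ T.card • h (Z \ C) else 0) = if C = Z \ S then h S else 0 := by
    intro C hC
    rw [mem_powersetCard] at hC
    have h4 : S.powerset.filter (fun T => T ⊆ C) = (S ∩ C).powerset := by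
      ext T
      rw [mem_filter, mem_powerset, mem_powerset, subset_inter_iff]
    rw [← sum_filter, h4, ← sum_smul, sum_powerset_neg_one_pow_card]
    by_cases h5 : S ∩ C = ∅
    · have h6 : C = Z \ S := by
        apply eq_of_subset_of_card_le
        · intro x hx
          rw [mem_sdiff]
          refine ⟨hC.1 hx, fun hxS => ?_⟩
          have : x ∈ S ∩ C := mem_inter.mpr ⟨hxS, hx⟩
          rw [h5] at this
          exact notMem_empty _ this
        · rw [card_sdiff_of_subset hS, hC.2]
          omega
      rw [if_pos h5, if_pos h6, one_smul, h6, Finset.sdiff_sdiff_eq_self hS]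
    · rw [if_neg h5, zero_smul, if_neg]
      intro h6
      apply h5
      rw [h6]
      exact inter_sdiff_self S Z
  rw [sum_congr rfl h3, sum_ite_eq', if_pos]
  rw [mem_powersetCard]
  refine ⟨sdiff_subset, ?_⟩
  rw [card_sdiff_of_subset hS]
  omega

/-- The structure theorem: functions on `b`-subsets killed by `b`-fold differences have degree
less than `b`. -/
theorem structure_killed : ∀ (m a : ℕ) (b : ℕ) (Z : Finset α) (h : Finset α → Q),
    a + b = m → Z.card = a + b → Killed Z b h → ∃ c : Finset α → Q, ∀ S ⊆ Z, S.card = b →
      h S = ∑ T ∈ S.ssubsets, c T := by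
  classical
  intro m
  induction m with
  | zero =>
    intro a b Z h hm hZ hk
    obtain ⟨rfl, rfl⟩ : a = 0 ∧ b = 0 := by omega
    refine ⟨0, fun S hS hSb => ?_⟩
    rw [card_eq_zero] at hSb
    subst hSb
    have := hk ∅ (empty_subset _) card_empty id (by simp) (by simp)
    simp [altSum, swapSet] at this
    simp [this]
  | succ m ih =>
    intro a b Z h hm hZ hk
    rcases lt_or_ge a b with hab | hab
    · exact small_room Z a b hab hZ h
    rcases Nat.eq_zero_or_pos b with hb0 | hb0
    · subst hb0
      refine ⟨0, fun S hS hSb => ?_⟩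
      rw [card_eq_zero] at hSb
      subst hSb
      have := hk ∅ (empty_subset _) card_empty id (by simp) (by simp)
      simp [altSum, swapSet] at this
      simp [this]
    -- remove a letter
    have hZne : Z.Nonempty := by rw [← card_pos]; omega
    obtain ⟨z, hz⟩ := hZne
    set Z' := Z.erase z with hZ'
    have hZ'Z : Z' ⊆ Z := erase_subset _ _
    have hZ'c : Z'.card = a + b - 1 := by rw [hZ', card_erase_of_mem hz, hZ]
    obtain ⟨c0, hc0⟩ := ih (a - 1) b Z' h (by omega) (by omega) (by
      intro B hB hBb y hy hyB
      refine hk B (hB.trans hZ'Z) hBb y hy (fun x hx => ?_)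
      have := hyB x hx
      rw [mem_sdiff] at this ⊢
      exact ⟨hZ'Z this.1, this.2⟩)
    set c0' : Finset α → Q := fun T => if z ∈ T then 0 else c0 T with hc0'
    set h' : Finset α → Q := fun S => h S - ∑ T ∈ S.ssubsets, c0' T with hh'
    have hk' : Killed Z b h' := by
      intro B hB hBb y hy hyB
      rw [hh', altSum_sub, hk B hB hBb y hy hyB, altSum_ssubsets c0' B y hy
        (fun x hx => (mem_sdiff.mp (hyB x hx)).2), sub_zero]
    have h'0 : ∀ S ⊆ Z, S.card = b → z ∉ S → h' S = 0 := by
      intro S hS hSb hzS
      rw [hh']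
      simp only
      rw [hc0 S (fun x hx => mem_erase.mpr ⟨fun he => hzS (he ▸ hx), hS hx⟩) hSb, sub_eq_zero]
      apply sum_congr rfl
      intro T hT
      rw [hc0']
      simp only
      rw [if_neg]
      intro hzT
      exact hzS ((mem_ssubsets.mp hT).subset hzT)
    -- the derivative
    obtain ⟨c1, hc1⟩ := ih a (b - 1) Z' (fun S => h' (insert z S)) (by omega) (by omega) (by
      intro B hB hBb y hy hyB
      -- a free letter
      have hzB : z ∉ B := fun h => notMem_erase z Z (hB h)
      have hzy : ∀ x ∈ B, y x ≠ z := by
        intro x hx he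
        have := (mem_sdiff.mp (hyB x hx)).1
        rw [he] at this
        exact notMem_erase z Z this
      obtain ⟨w, hwZ, hwB⟩ : ∃ w ∈ Z', w ∉ B ∪ B.image y := by
        by_contra hcon
        push Not at hcon
        have h1 : Z'.card ≤ (B ∪ B.image y).card := card_le_card hcon
        have h2 : (B ∪ B.image y).card ≤ B.card + B.card :=
          (card_union_le _ _).trans (Nat.add_le_add_left card_image_le _)
        omega
      rw [mem_union, not_or] at hwB
      have hwz : w ≠ z := fun he => by
        rw [he] at hwZ
        exact notMem_erase z Z hwZ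
      set y' : α → α := Function.update y z w with hy'
      have hy'z : y' z = w := Function.update_self _ _ _
      have hy'x : ∀ x ∈ B, y' x = y x := fun x hx =>
        Function.update_of_ne (fun he => by rw [he] at hx; exact hzB hx) _ _
      have hinj : Set.InjOn y' (insert z B : Finset α) := by
        intro u hu v hv he
        rw [mem_coe, mem_insert] at hu hv
        rcases hu with rfl | hu <;> rcases hv with rfl | hv
        · rfl
        · rw [hy'z, hy'x v hv] at he
          exact absurd (mem_image.mpr ⟨v, hv, he.symm⟩) hwB.2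
        · rw [hy'z, hy'x u hu] at he
          exact absurd (mem_image.mpr ⟨u, hu, he⟩) hwB.2
        · rw [hy'x u hu, hy'x v hv] at he
          exact hy hu hv he
      have h3 := hk' (insert z B) (insert_subset hz (hB.trans hZ'Z))
        (by rw [card_insert_of_notMem hzB]; omega) y' hinj (by
          intro x hx
          rw [mem_insert] at hx
          rw [mem_sdiff, mem_insert, not_or]
          rcases hx with rfl | hx
          · rw [hy'z]
            exact ⟨hZ'Z hwZ, hwz, hwB.1⟩
          · rw [hy'x x hx]
            have := mem_sdiff.mp (hyB x hx)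
            exact ⟨hZ'Z this.1, hzy x hx, this.2⟩)
      unfold altSum at h3 ⊢
      rw [sum_powerset_insert hzB] at h3
      have h4 : ∑ T ∈ B.powerset, (-1 : ℤ) ^ (insert z T).card •
          h' (swapSet (insert z B) (insert z T) y') = 0 := by
        apply sum_eq_zero
        intro T hT
        rw [mem_powerset] at hT
        have hzT : z ∉ T := fun h => hzB (hT h)
        have h5 : swapSet (insert z B) (insert z T) y' = (B \ T) ∪ insert w (T.image y) := by
          unfold swapSet
          congr 1
          · ext x
            rw [mem_sdiff, mem_sdiff, mem_insert, mem_insert]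
            constructor
            · rintro ⟨rfl | h1, h2⟩
              · exact absurd (Or.inl rfl) h2
              · exact ⟨h1, fun h => h2 (Or.inr h)⟩
            · rintro ⟨h1, h2⟩
              refine ⟨Or.inr h1, ?_⟩
              rintro (rfl | h)
              · exact hzB h1
              · exact h2 h
          · rw [image_insert, hy'z]
            congr 1
            exact image_congr (fun x hx => hy'x x (hT hx))
        rw [h'0, smul_zero]
        · rw [h5]
          apply union_subset (sdiff_subset.trans (hB.trans hZ'Z))
          apply insert_subset (hZ'Z hwZ)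
          intro u hu
          obtain ⟨x, hx, rfl⟩ := mem_image.mp hu
          exact hZ'Z (mem_sdiff.mp (hyB x (hT hx))).1
        · rw [card_swapSet (insert_subset_insert _ hT) hinj]
          · rw [card_insert_of_notMem hzB]; omega
          · intro x hx
            rw [mem_insert] at hx
            rw [mem_insert, not_or]
            rcases hx with rfl | hx
            · rw [hy'z]; exact ⟨hwz, hwB.1⟩
            · rw [hy'x x hx]
              exact ⟨hzy x hx, (mem_sdiff.mp (hyB x hx)).2⟩
        · rw [h5, mem_union, mem_insert, not_or, not_or]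
          refine ⟨fun h => hzB (mem_sdiff.mp h).1, hwz.symm, fun h => ?_⟩
          obtain ⟨x, hx, hxe⟩ := mem_image.mp h
          exact hzy x (hT hx) hxe
      rw [h4, add_zero] at h3
      rw [← h3]
      apply sum_congr rfl
      intro T hT
      rw [mem_powerset] at hT
      have hzT : z ∉ T := fun h => hzB (hT h)
      have h6 : insert z (swapSet B T y) = swapSet (insert z B) T y' := by
       unfold swapSet
       rw [image_congr (fun x hx => (hy'x x (hT hx)) : Set.EqOn y' y T)]
       ext x
       simp only [mem_insert, mem_union, mem_sdiff]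
       constructor
       · rintro (rfl | ⟨h1, h2⟩ | h1)
         · exact Or.inl ⟨Or.inl rfl, hzT⟩
         · exact Or.inl ⟨Or.inr h1, h2⟩
         · exact Or.inr h1
       · rintro (⟨rfl | h1, h2⟩ | h1)
         · exact Or.inl rfl
         · exact Or.inr (Or.inl ⟨h1, h2⟩)
         · exact Or.inr (Or.inr h1)
      change (-1 : ℤ) ^ T.card • h' (insert z (swapSet B T y)) = _
      rw [h6])
    -- assemble
    refine ⟨fun T => if z ∈ T then c1 (T.erase z) else c0 T, ?_⟩
    intro S hS hSb
    by_cases hzS : z ∈ S
    · have h1 : h' (insert z (S.erase z)) = ∑ T ∈ (S.erase z).ssubsets, c1 T :=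
        hc1 (S.erase z) (erase_subset_erase z hS) (by rw [card_erase_of_mem hzS, hSb])
      rw [insert_erase hzS] at h1
      have h2 : h S = h' S + ∑ T ∈ S.ssubsets, c0' T := by
        rw [hh']
        simp only [sub_add_cancel]
      have h3 : ∑ T ∈ S.ssubsets, (if z ∈ T then c1 (T.erase z) else 0) =
          ∑ U ∈ (S.erase z).ssubsets, c1 U := by
        rw [← sum_filter]
        refine sum_nbij' (fun T => T.erase z) (fun U => insert z U) ?_ ?_ ?_ ?_ ?_
        · intro T hT
          rw [mem_filter, mem_ssubsets] at hT
          rw [mem_ssubsets]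
          rw [Finset.ssubset_iff_subset_ne]
          exact ⟨erase_subset_erase z hT.1.subset, fun he => hT.1.ne
            (by rw [← insert_erase hT.2, he, insert_erase hzS])⟩
        · intro U hU
          rw [mem_ssubsets] at hU
          rw [mem_filter, mem_ssubsets]
          refine ⟨?_, mem_insert_self _ _⟩
          have hzU : z ∉ U := fun h => notMem_erase z S (hU.subset h)
          rw [Finset.ssubset_iff_subset_ne]
          refine ⟨insert_subset hzS (hU.subset.trans (erase_subset _ _)), fun he => ?_⟩
          have : U = S.erase z := by rw [← he, erase_insert hzU]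
          exact hU.ne this
        · intro T hT
          rw [mem_filter] at hT
          exact insert_erase hT.2
        · intro U hU
          rw [mem_ssubsets] at hU
          exact erase_insert (fun h => notMem_erase z S (hU.subset h))
        · intro T _
          rfl
      rw [h2, h1, ← h3, ← sum_add_distrib]
      apply sum_congr rfl
      intro T _
      rw [hc0']
      by_cases hzT : z ∈ T
      · simp only [if_pos hzT, add_zero]
      · simp only [if_neg hzT, zero_add]
    · rw [hc0 S (fun x hx => mem_erase.mpr ⟨fun he => hzS (he ▸ hx), hS hx⟩) hSb]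
      apply sum_congr rfl
      intro T hT
      have hzT : z ∉ T := fun hzT => hzS ((mem_ssubsets.mp hT).subset hzT)
      simp only [if_neg hzT]

/-- the number of `b`-subsets of `Z` containing `T` -/
theorem card_supersets (Z T : Finset α) (hT : T ⊆ Z) (b : ℕ) (hb : T.card ≤ b) :
    ((powersetCard b Z).filter (fun S => T ⊆ S)).card = (Z.card - T.card).choose (b - T.card) := by
  classical
  rw [← card_sdiff_of_subset hT, ← card_powersetCard]
  refine card_nbij' (fun S => S \ T) (fun U => U ∪ T) ?_ ?_ ?_ ?_
  · intro S hS
    rw [mem_coe, mem_filter, mem_powersetCard] at hS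
    rw [mem_coe, mem_powersetCard]
    refine ⟨sdiff_subset_sdiff hS.1.1 subset_rfl, ?_⟩
    rw [card_sdiff_of_subset hS.2, hS.1.2]
  · intro U hU
    rw [mem_coe, mem_powersetCard] at hU
    rw [mem_coe, mem_filter, mem_powersetCard]
    refine ⟨⟨union_subset (hU.1.trans sdiff_subset) hT, ?_⟩, subset_union_right⟩
    rw [card_union_of_disjoint, hU.2]
    · omega
    · exact disjoint_of_subset_left hU.1 sdiff_disjoint
  · intro S hS
    rw [mem_coe, mem_filter] at hS
    exact sdiff_union_of_subset hS.2
  · intro U hU
    rw [mem_coe, mem_powersetCard] at hU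
    simp only
    rw [union_sdiff_right]
    exact sdiff_eq_self_of_disjoint (disjoint_of_subset_left hU.1 sdiff_disjoint)

theorem dvd_choose {p N k : ℕ} (hp : p.Prime) (hk : 1 ≤ k) (hkN : k < p ^ N) :
    p ∣ (p ^ N - 1 + k).choose k := by
  obtain ⟨j, rfl⟩ : ∃ j, k = j + 1 := ⟨k - 1, by omega⟩
  have hpos : 0 < p ^ N := pow_pos hp.pos N
  have h1 : p ^ N - 1 + (j + 1) = p ^ N + j := by omega
  rw [h1]
  -- (j+1) * C(n, j+1) = (n - j) * C(n, j)
  have h2 := Nat.choose_succ_right_eq (p ^ N + j) j
  rw [Nat.add_sub_cancel] at h2
  -- valuations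
  have h3 : p ^ N ∣ (p ^ N + j).choose (j + 1) * (j + 1) := by
    rw [h2]; exact Dvd.intro_left _ rfl
  by_contra hcon
  have h4 : Nat.Coprime (p ^ N) ((p ^ N + j).choose (j + 1)) :=
    Nat.Coprime.pow_left _ ((Nat.Prime.coprime_iff_not_dvd hp).mpr hcon)
  have h5 := h4.dvd_of_dvd_mul_left h3
  exact absurd (Nat.le_of_dvd (Nat.succ_pos j) h5) (by omega)

/-- The key vanishing: a function on the `b`-subsets of a set with `p ^ N - 1 + b` elements which
is killed by `b`-fold differences has sum zero in characteristic `p`. -/
theorem sum_killed {p : ℕ} (hp : p.Prime) (hQ : ∀ q : Q, p • q = 0) {N b : ℕ} (hb : b < p ^ N)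
    (Z : Finset α) (hZ : Z.card = p ^ N - 1 + b) (h : Finset α → Q) (hk : Killed Z b h) :
    ∑ S ∈ powersetCard b Z, h S = 0 := by
  classical
  obtain ⟨c, hc⟩ := structure_killed _ (p ^ N - 1) b Z h rfl hZ hk
  have h1 : ∀ S ∈ powersetCard b Z, h S = ∑ T ∈ Z.powerset, if T ⊂ S then c T else 0 := by
    intro S hS
    rw [mem_powersetCard] at hS
    rw [hc S hS.1 hS.2, ← sum_filter]
    apply sum_congr _ (fun _ _ => rfl)
    ext T
    rw [mem_ssubsets, mem_filter, mem_powerset]
    exact ⟨fun hT => ⟨hT.subset.trans hS.1, hT⟩, fun hT => hT.2⟩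
  rw [sum_congr rfl h1, sum_comm]
  apply sum_eq_zero
  intro T hT
  rw [mem_powerset] at hT
  by_cases hTb : T.card < b
  · rw [← sum_filter, sum_const]
    have h2 : (powersetCard b Z).filter (fun S => T ⊂ S) =
        (powersetCard b Z).filter (fun S => T ⊆ S) := by
      apply filter_congr
      intro S hS
      rw [mem_powersetCard] at hS
      constructor
      · exact fun h => h.subset
      · intro h
        rw [Finset.ssubset_iff_subset_ne]
        refine ⟨h, fun he => ?_⟩
        rw [he, hS.2] at hTb
        exact lt_irrefl _ hTb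
    rw [h2, card_supersets Z T hT b hTb.le, hZ]
    have h3 : p ^ N - 1 + b - T.card = p ^ N - 1 + (b - T.card) := by omega
    rw [h3]
    obtain ⟨d, hd⟩ := dvd_choose hp (k := b - T.card) (N := N) (by omega) (by omega)
    rw [hd, mul_comm, mul_smul, hQ, smul_zero]
  · apply sum_eq_zero
    intro S hS
    rw [mem_powersetCard] at hS
    rw [if_neg]
    intro h
    have := card_lt_card h
    omega

end FinSym
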