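import Pool.Agent.Lib.MP_a8d7f7_al.FinMain

/-!
# MP_a8d7f7_al: from finite symmetric groups to the finitary symmetric group (helper62)
-/

set_option autoImplicit false
set_option linter.unusedSectionVars false
set_option linter.unusedVariables false

namespace FinSym

open Finset Equiv

/-- The finitary symmetric group: the permutations of `Ω` which move only finitely many points. -/
def FSym (Ω : Type*) : Subgroup (Perm Ω) where
  carrier := {σ | {x | σ x ≠ x}.Finite}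
  mul_mem' := by
    intro a b ha hb
    refine (Set.Finite.union ha hb).subset ?_
    intro x hx
    by_cases h : b x = x
    · left
      intro h'
      apply hx
      rw [Perm.mul_apply, h, h']
    · exact Or.inr h
  one_mem' := by
    simp
  inv_mem' := by
    intro a ha
    refine Set.Finite.subset ha ?_
    intro x hx h
    apply hx
    rw [Perm.inv_eq_iff_eq, h]

variable {K : Type*} [Field K] {Ω : Type*}

theorem mem_FSym {σ : Perm Ω} : σ ∈ FSym Ω ↔ {x | σ x ≠ x}.Finite := Iff.rfl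

variable [DecidableEq Ω]

/-- A permutation of the finite set `Δ`, extended by the identity to `Ω`. -/
def ext (Δ : Finset Ω) : Perm Δ →* FSym Ω :=
  (Perm.ofSubtype : Perm Δ →* Perm Ω).codRestrict (FSym Ω) (by
    intro τ
    refine (Δ.finite_toSet).subset ?_
    intro x hx
    by_contra h
    exact hx (Perm.ofSubtype_apply_of_not_mem τ h))

theorem ext_mem (Δ : Finset Ω) (τ : Perm Δ) {x : Ω} (hx : x ∈ Δ) :
    ((ext Δ τ : FSym Ω) : Perm Ω) x = τ ⟨x, hx⟩ :=
  Perm.ofSubtype_apply_of_mem τ hx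

theorem ext_notMem (Δ : Finset Ω) (τ : Perm Δ) {x : Ω} (hx : x ∉ Δ) :
    ((ext Δ τ : FSym Ω) : Perm Ω) x = x :=
  Perm.ofSubtype_apply_of_not_mem τ hx

theorem ext_injective (Δ : Finset Ω) : Function.Injective (ext Δ) := by
  intro σ τ h
  apply Equiv.ext
  intro x
  have h1 : (ext Δ σ : Perm Ω) (x : Ω) = (ext Δ τ : Perm Ω) (x : Ω) := by rw [h]
  rw [ext_mem Δ σ x.2, ext_mem Δ τ x.2] at h1
  exact Subtype.ext h1

theorem exists_ext (Δ : Finset Ω) (ρ : FSym Ω) (h : ∀ x, x ∉ Δ → (ρ : Perm Ω) x = x) :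
    ∃ τ : Perm Δ, ext Δ τ = ρ := by
  have hm : ∀ x, (ρ : Perm Ω) x ∈ Δ ↔ x ∈ Δ := by
    intro x
    constructor
    · intro hx
      by_contra hx'
      rw [h x hx'] at hx
      exact hx' hx
    · intro hx
      by_contra hx'
      have := h _ hx'
      rw [(ρ : Perm Ω).injective this] at hx'
      exact hx' hx
  refine ⟨(ρ : Perm Ω).subtypePerm (p := fun x => x ∈ Δ) hm, ?_⟩
  apply Subtype.ext
  apply Equiv.ext
  intro x
  by_cases hx : x ∈ Δ
  · rw [ext_mem _ _ hx]; rfl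
  · rw [ext_notMem _ _ hx, h x hx]

/-- the symmetrizer of a finite set, in `K[FSym Ω]` -/
noncomputable def symmetrizer (K : Type*) [Field K] {Ω : Type*} [DecidableEq Ω] (Δ : Finset Ω) :
    MonoidAlgebra K (FSym Ω) :=
  ∑ τ : Perm Δ, MonoidAlgebra.of K (FSym Ω) (ext Δ τ)

/-- the antisymmetrizer of a finite set, in `K[FSym Ω]` -/
noncomputable def antisymmetrizer (K : Type*) [Field K] {Ω : Type*} [DecidableEq Ω]
    (Δ : Finset Ω) : MonoidAlgebra K (FSym Ω) :=
  ∑ τ : Perm Δ, ((Perm.sign τ : ℤ) : K) • MonoidAlgebra.of K (FSym Ω) (ext Δ τ)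

/-- the embedding of `K[Sym Δ]` -/
noncomputable def phi (K : Type*) [Field K] {Ω : Type*} [DecidableEq Ω] (Δ : Finset Ω) :
    MonoidAlgebra K (Perm Δ) →ₐ[K] MonoidAlgebra K (FSym Ω) :=
  MonoidAlgebra.lift K _ _ ((MonoidAlgebra.of K (FSym Ω)).comp (ext Δ))

theorem phi_o (Δ : Finset Ω) (τ : Perm Δ) :
    phi K Δ (o K τ) = MonoidAlgebra.of K (FSym Ω) (ext Δ τ) := by
  unfold phi
  exact MonoidAlgebra.lift_of _ _

theorem filter_PS_univ {α : Type*} [Fintype α] [DecidableEq α] :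
    (univ : Finset (Perm α)).filter (· ∈ PS (univ : Finset α)) = univ := by
  apply filter_true_of_mem
  intro σ _ x hx
  exact absurd (mem_univ x) hx

theorem phi_e (Δ : Finset Ω) : phi K Δ (e K univ) = symmetrizer K Δ := by
  unfold e symmetrizer
  rw [filter_PS_univ, map_sum]
  exact sum_congr rfl (fun τ _ => phi_o Δ τ)

theorem phi_k (Δ : Finset Ω) : phi K Δ (k K univ) = antisymmetrizer K Δ := by
  unfold k antisymmetrizer
  rw [filter_PS_univ, map_sum]
  apply sum_congr rfl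
  intro τ _
  rw [map_smul, phi_o]
  rfl

theorem expand {G : Type*} [Monoid G] (f : MonoidAlgebra K G) {S : Finset G}
    (h : f.coeff.support ⊆ S) : f = ∑ σ ∈ S, f.coeff σ • MonoidAlgebra.of K G σ := by
  have h1 : ∀ σ, f.coeff σ • MonoidAlgebra.of K G σ = MonoidAlgebra.single σ (f.coeff σ) := by
    intro σ
    rw [MonoidAlgebra.of_apply, MonoidAlgebra.smul_single', mul_one]
  simp only [h1]
  conv_lhs => rw [← MonoidAlgebra.sum_coeff_single f]
  unfold Finsupp.sum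
  apply sum_subset h
  intro σ _ hσ
  rw [Finsupp.notMem_support_iff.mp hσ, MonoidAlgebra.single_zero]

/-- moving a finite set into a larger one -/
theorem exists_move (X Δ : Finset Ω) (h : X.card ≤ Δ.card) :
    ∃ g : FSym Ω, ∀ x ∈ X, (g : Perm Ω) x ∈ Δ := by
  obtain ⟨Δ', hΔ', hc⟩ := exists_subset_card_eq h
  let W := X ∪ Δ'
  let e1 : {x : W // (x : Ω) ∈ X} ≃ {x // x ∈ X} :=
    Equiv.subtypeSubtypeEquivSubtype (p := fun x => x ∈ W) (q := fun x => x ∈ X)
      (fun hx => mem_union_left _ hx)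
  let e2 : {x : W // (x : Ω) ∈ Δ'} ≃ {x // x ∈ Δ'} :=
    Equiv.subtypeSubtypeEquivSubtype (p := fun x => x ∈ W) (q := fun x => x ∈ Δ')
      (fun hx => mem_union_right _ hx)
  let e3 : {x // x ∈ X} ≃ {x // x ∈ Δ'} := Finset.equivOfCardEq hc.symm
  let g₀ : Perm W := (e1.trans (e3.trans e2.symm)).extendSubtype
  refine ⟨ext W g₀, ?_⟩
  intro x hx
  have hxW : x ∈ W := mem_union_left _ hx
  rw [ext_mem W g₀ hxW]
  have := (e1.trans (e3.trans e2.symm)).extendSubtype_mem ⟨x, hxW⟩ hx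
  exact hΔ' this

/-- an element of an ideal moving only `#X` letters can be moved into `K[Sym Δ]` -/
theorem transfer {I : TwoSidedIdeal (MonoidAlgebra K (FSym Ω))} {f : MonoidAlgebra K (FSym Ω)}
    (hf : f ∈ I) (hf0 : f ≠ 0) {X : Finset Ω}
    (hX : ∀ σ ∈ f.coeff.support, ∀ x, x ∉ X → (σ : Perm Ω) x = x) {Δ : Finset Ω}
    (hΔ : X.card ≤ Δ.card) :
    ∃ (X₀ : Finset Δ) (s : Finset (Perm Δ)) (c : Perm Δ → K) (σ₀ : Perm Δ), X₀.card = X.card ∧
      (∀ σ ∈ s, σ ∈ PS X₀) ∧ σ₀ ∈ s ∧ c σ₀ ≠ 0 ∧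
      ∑ σ ∈ s, c σ • o K σ ∈ I.comap (phi K Δ) := by
  obtain ⟨g, hg⟩ := exists_move X Δ hΔ
  have : DecidableEq (FSym Ω) := Classical.decEq _
  set X' : Finset Ω := X.image (g : Perm Ω) with hX'
  have hX'Δ : X' ⊆ Δ := by
    intro z hz
    obtain ⟨x, hx, rfl⟩ := mem_image.mp hz
    exact hg x hx
  set X₀ : Finset Δ := X'.subtype (· ∈ Δ) with hX₀
  have hX₀m : ∀ z : Δ, z ∈ X₀ ↔ (z : Ω) ∈ X' := fun z => by
    rw [hX₀]; exact mem_subtype
  have hX₀c : X₀.card = X.card := by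
    rw [hX₀, card_subtype, filter_true_of_mem (fun x hx => hX'Δ hx), hX',
      card_image_of_injective _ (Equiv.injective _)]
  set s : Finset (Perm Δ) := univ.filter (· ∈ PS X₀) with hs
  set ψ : Perm Δ → FSym Ω := fun τ => g⁻¹ * ext Δ τ * g with hψ
  have hψi : Function.Injective ψ := by
    intro τ τ' h
    rw [hψ] at h
    simp only at h
    exact ext_injective Δ (mul_left_cancel (mul_right_cancel h))
  -- the support is in the image
  have hsupp : ∀ σ ∈ f.coeff.support, ∃ τ ∈ s, ψ τ = σ := by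
    intro σ hσ
    have h1 : ∀ x, x ∉ X' → ((g * σ * g⁻¹ : FSym Ω) : Perm Ω) x = x := by
      intro x hx
      have h2 : (g : Perm Ω)⁻¹ x ∉ X := by
        intro h
        apply hx
        rw [hX', mem_image]
        exact ⟨_, h, (g : Perm Ω).apply_symm_apply x⟩
      change (g : Perm Ω) ((σ : Perm Ω) ((g : Perm Ω)⁻¹ x)) = x
      rw [hX σ hσ _ h2]
      exact (g : Perm Ω).apply_symm_apply x
    obtain ⟨τ, hτ⟩ := exists_ext Δ (g * σ * g⁻¹) (fun x hx => h1 x (fun h => hx (hX'Δ h)))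
    refine ⟨τ, ?_, ?_⟩
    · rw [hs, mem_filter]
      refine ⟨mem_univ _, ?_⟩
      intro x hx
      rw [hX₀m] at hx
      have h3 := h1 x hx
      rw [← hτ, ext_mem Δ τ x.2] at h3
      exact Subtype.ext h3
    · rw [hψ]
      simp only
      rw [hτ]
      group
  have hfexp : f = ∑ τ ∈ s, f.coeff (ψ τ) • MonoidAlgebra.of K (FSym Ω) (ψ τ) := by
    have h1 : f.coeff.support ⊆ s.image ψ := by
      intro σ hσ
      obtain ⟨τ, hτ, h⟩ := hsupp σ hσ
      exact mem_image.mpr ⟨τ, hτ, h⟩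
    conv_lhs => rw [expand f h1]
    rw [sum_image (fun _ _ _ _ h => hψi h)]
  obtain ⟨σ₁, hσ₁⟩ : ∃ σ₁, f.coeff σ₁ ≠ 0 := by
    by_contra hcon
    push Not at hcon
    apply hf0
    apply MonoidAlgebra.ext
    apply Finsupp.ext
    intro σ
    rw [hcon σ]
    rfl
  obtain ⟨τ₀, hτ₀, hτσ⟩ := hsupp σ₁ (Finsupp.mem_support_iff.mpr hσ₁)
  refine ⟨X₀, s, fun τ => f.coeff (ψ τ), τ₀, hX₀c, fun σ hσ => (mem_filter.mp hσ).2, hτ₀, ?_, ?_⟩
  · simp only
    rw [hτσ]
    exact hσ₁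
  · rw [TwoSidedIdeal.mem_comap, map_sum]
    have h1 : ∑ τ ∈ s, phi K Δ (f.coeff (ψ τ) • o K τ) =
        MonoidAlgebra.of K (FSym Ω) g * f * MonoidAlgebra.of K (FSym Ω) g⁻¹ := by
      conv_rhs => rw [hfexp]
      rw [mul_sum, sum_mul]
      apply sum_congr rfl
      intro τ _
      rw [map_smul, phi_o, mul_smul_comm, smul_mul_assoc, ← map_mul, ← map_mul]
      congr 2
      rw [hψ]
      simp only
      group
    rw [h1]
    exact I.mul_mem_right _ _ (I.mul_mem_left _ _ hf)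

/-- **Theorem A.** -/
theorem thmA {p : ℕ} (hp : p.Prime) [CharP K p] {I : TwoSidedIdeal (MonoidAlgebra K (FSym Ω))}
    {f : MonoidAlgebra K (FSym Ω)} (hf : f ∈ I) (hf0 : f ≠ 0) {X : Finset Ω} (hXn : 1 ≤ X.card)
    (hX : ∀ σ ∈ f.coeff.support, ∀ x, x ∉ X → (σ : Perm Ω) x = x) {Δ : Finset Ω}
    (hΔ : X.card * (p + 1) ^ (X.card - 1) ≤ Δ.card) :
    symmetrizer K Δ ∈ I ∧ antisymmetrizer K Δ ∈ I := by
  have h1 : X.card ≤ Δ.card :=
    (Nat.le_mul_of_pos_right _ (Nat.pow_pos (Nat.succ_pos p))).trans hΔ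
  obtain ⟨X₀, s, c, σ₀, hc, hs, hσ₀, hcσ, hm⟩ := transfer hf hf0 hX h1
  have h2 : X.card * (p + 1) ^ (X.card - 1) ≤ Fintype.card Δ := by
    rw [Fintype.card_coe]; exact hΔ
  constructor
  · have := fin_main_e (K := K) hp hXn h2 hc hs hσ₀ hcσ hm
    rwa [TwoSidedIdeal.mem_comap, phi_e] at this
  · have := fin_main_k (K := K) hp hXn h2 hc hs hσ₀ hcσ hm
    rwa [TwoSidedIdeal.mem_comap, phi_k] at this

end FinSym
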